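import Pool.Agent.H189.SC.Main

/-!
# The base case and the final estimate
-/

namespace Pool.Agent.H189.SC.MAIN

open MeasureTheory Filter Pool.Agent.TH964.CF Pool.Agent.TH964.CF.BASIC

set_option linter.unusedSectionVars false

variable {G : Type} [Group G] [TopologicalSpace G] [IsTopologicalGroup G] [CompactSpace G]
  [T2Space G] [SecondCountableTopology G] [MeasurableSpace G] [BorelSpace G] {σ : Measure G}
  [IsProbabilityMeasure σ] [σ.IsHaarMeasure] {N : ℕ} {π : G →* Matrix.unitaryGroup (Fin N) ℂ}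
  {M : ℕ} {τ : G →* Matrix.unitaryGroup (Fin M) ℂ}
  {β : ℝ} {Λ : ((Lk ℤ → G) → ℂ) → ℂ}

/-- The support of the observable. -/
def pl (s : ℤ) : Set (Lk ℤ) := {l | l ∈ box s ∧ l.1 0 = 0 ∧ l.1 1 = 0 ∧ l.2 ≠ 0 ∧ l.2 ≠ 1}

theorem ev_ne {i j : Fin 4} (h : i ≠ j) : ev ℤ i j = 0 := by
  unfold ev
  rw [Pi.single_apply, if_neg (fun h' => h h'.symm)]

theorem obs_refl {O : (Lk ℤ → G) → Fin M → ℂ} {s : ℤ} (h : DependsOn O (pl s)) (U : Lk ℤ → G) :
    O (Pool.Agent.TH964.CF.refl 1 U) = O U := by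
  refine h fun l hl => ?_
  obtain ⟨-, -, h1, -, h2⟩ := hl
  unfold Pool.Agent.TH964.CF.refl
  rw [if_neg h2]
  congr 1
  have : rs 1 l.1 = l.1 := by
    unfold rs
    rw [h1, neg_zero, ← h1, Function.update_eq_self]
  rw [this]

theorem shift_zero (U : Lk ℤ → G) : shift (0 : Fin 4 → ℤ) U = U := by
  funext l
  simp [shift]

theorem v0 (hpos : S_POS) (hπ : Continuous π) (hΛ : State σ π β Λ)
    {O : (Lk ℤ → G) → Fin M → ℂ} (hO : Continuous O) {s : ℤ} (hd : DependsOn O (pl s))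
    (hne : ∃ U, O U ≠ 0) : 0 < (Λ fun U => star (O U) ⬝ᵥ O U).re ∧ 0 < vv τ Λ 0 O 0 := by
  have hl : Loc O := ⟨hO, _, (box_finite s).subset (fun l hl => hl.1), hd⟩
  have e : ∀ U, star (O U) ⬝ᵥ O U = ((∑ i, ‖O U i‖ ^ 2 : ℝ) : ℂ) := fun U => by
    unfold dotProduct
    push_cast
    refine Finset.sum_congr rfl fun i _ => ?_
    rw [Pi.star_apply, Complex.star_def, Complex.conj_mul']
  have h1 : 0 < (Λ fun U => star (O U) ⬝ᵥ O U).re := by
    refine hpos G σ N π hπ β Λ hΛ _ (Loc.comp2 hl hl (f := fun p => star p.1 ⬝ᵥ p.2) dot_cont)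
      (fun U => ?_) ?_
    · rw [e, Complex.ofReal_re]
      positivity
    · obtain ⟨U, hU⟩ := hne
      refine ⟨U, ?_⟩
      rw [e, Complex.ofReal_re]
      obtain ⟨i, hi⟩ : ∃ i, O U i ≠ 0 := by
        by_contra hcon
        push Not at hcon
        exact hU (funext hcon)
      have : 0 < ‖O U i‖ ^ 2 := by positivity
      exact lt_of_lt_of_le this
        (Finset.single_le_sum (f := fun i => ‖O U i‖ ^ 2) (fun i _ => by positivity)
          (Finset.mem_univ i))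
  refine ⟨h1, ?_⟩
  have e2 : fm τ 0 (2 * 0) O O = fun U => star (O U) ⬝ᵥ O U := by
    funext U
    unfold fm
    rw [obs_refl hd, mul_zero, zero_smul, shift_zero]
    simp [path, seg, act_one]
  unfold vv
  rw [e2]
  exact h1

theorem v1 (hP : T_PUSH) (hD : T_DLR2) (hR : T_RP1) (hpos : S_POS) (hπ : Continuous π) (hτ : Continuous τ)
    (hπi : Function.Injective π) (hβ : 0 < β) (hΛ : State σ π β Λ)
    {O : (Lk ℤ → G) → Fin M → ℂ} (hO : Continuous O) {s : ℤ} (hd : DependsOn O (pl s))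
    (hcov : ∀ (g : (Fin 4 → ℤ) → G) (U : Lk ℤ → G), O (gt g U) = act τ (g 0) (O U))
    (hne : ∃ U, O U ≠ 0) : 0 < vv τ Λ 0 O 1 := by
  have hl : Loc O := ⟨hO, _, (box_finite s).subset (fun l hl => hl.1), hd⟩
  obtain ⟨hpos0, -⟩ := v0 (τ := τ) hpos hπ hΛ hO hd hne
  obtain ⟨C, hC⟩ := isCompact_univ.exists_bound_of_continuousOn hO.continuousOn
  have hC' : ∀ U, ‖O U‖ ≤ C := fun U => hC U (Set.mem_univ U)
  have hC0 : 0 ≤ C := (norm_nonneg _).trans (hC' 1)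
  set Q : ((Lk ℤ → G) → Fin M → ℂ) → ℂ := fun Φ => Λ fun U => star (O U) ⬝ᵥ Φ U with hQ
  obtain ⟨s', hss, hs1⟩ : ∃ s' : ℤ, s ≤ s' ∧ 1 ≤ s' := ⟨max s 1, le_max_left _ _, le_max_right _ _⟩
  have hd' : DependsOn O (box s' ∩ hs 1 0) := by
    refine dep_mono hd ?_
    rintro l ⟨h1, -, h2, -, h3⟩
    refine ⟨box_mono hss h1, ?_⟩
    show (l.1 + ev ℤ l.2) 1 ≤ 0
    rw [Pi.add_apply, h2, ev_ne h3, add_zero]
  have hQ1 : ∀ Φ, Continuous Φ → DependsOn Φ (box (s' + 1) ∩ hs 1 0) → ∀ ε : ℝ, 0 < ε →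
      ∃ δ : ℝ, 0 < δ ∧ ∀ Φ', Continuous Φ' → DependsOn Φ' (box (s' + 1) ∩ hs 1 0) →
        (∀ U, ‖Φ' U - Φ U‖ ≤ δ) → dist (Q Φ') (Q Φ) ≤ ε := by
    intro Φ hΦ hdΦ ε hε
    refine ⟨ε / (M * C + 1), by positivity, fun Φ' hΦ' hdΦ' hdiff => ?_⟩
    rw [dist_eq_norm]
    refine st_diff hΛ
      (Loc.comp2 hl (Loc_of hΦ' hdΦ') (f := fun p => star p.1 ⬝ᵥ p.2) dot_cont)
      (Loc.comp2 hl (Loc_of hΦ hdΦ) (f := fun p => star p.1 ⬝ᵥ p.2) dot_cont) fun U => ?_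
    simp only
    rw [← dotProduct_sub]
    refine (dot_norm _ _).trans ?_
    calc (M : ℝ) * (‖O U‖ * ‖Φ' U - Φ U‖) ≤ M * (C * (ε / (M * C + 1))) := by
          have := mul_le_mul (hC' U) (hdiff U) (norm_nonneg _) hC0
          exact mul_le_mul_of_nonneg_left this (Nat.cast_nonneg M)
      _ = ε * (M * C) / (M * C + 1) := by ring
      _ ≤ ε := by
          rw [div_le_iff₀ (by positivity)]
          nlinarith
  have hQ2 : ∀ Φ, Continuous Φ → DependsOn Φ (box (s' + 1) ∩ hs 1 0) → ∀ e : Lk ℤ,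
      e ∈ box s' → e.1 1 = 0 - 1 → e.2 ≠ 1 → Q (ol σ π β e Φ) = Q Φ := by
    intro Φ hΦ hdΦ e he he1 he2
    refine (hD G σ N π hπ M β).2 Λ hΛ _ _ hl (Loc_of hΦ hdΦ) e fun U y => ?_
    refine dep_upd hd ?_ U y
    rintro ⟨-, -, h, -⟩
    rw [h] at he1
    norm_num at he1
  have hcov' : Cov τ 1 0 O := fun g _ U => by
    rw [hcov g U, Pi.single_zero]
  obtain ⟨Z', z1, z2, z3⟩ := hP G σ N π hπ hπi M τ hτ β hβ ℂ Q 1 0 s' (by omega) (by omega) hQ1 hQ2 O hO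
    hd' hcov' ((Q O).re / 2) (by simp only [hQ]; linarith)
  set F : (Lk ℤ → G) → ℂ := fun U =>
    star (O U) ⬝ᵥ act τ (U (Pi.single 1 0 - ev ℤ 1, 1))⁻¹ (Z' U) with hF
  have hZ'l : Loc Z' := Loc_of z1 z2
  have hUl : Loc fun U : Lk ℤ → G => U (Pi.single 1 0 - ev ℤ 1, 1) :=
    ⟨continuous_apply _, {(Pi.single 1 0 - ev ℤ 1, 1)}, Set.finite_singleton _,
      fun U V h => h _ rfl⟩
  have hFl : Loc F := by
    refine Loc.comp2 hl (Loc.comp2 hUl hZ'l (f := fun p => act τ p.1⁻¹ p.2) ?_)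
      (f := fun p => star p.1 ⬝ᵥ p.2) dot_cont
    exact (act_cont τ hτ).comp ((continuous_inv.comp continuous_fst).prodMk continuous_snd)
  have hF0 : Λ F ≠ 0 := by
    intro h0
    have : Q (fun U => act τ (U (Pi.single 1 0 - ev ℤ 1, 1))⁻¹ (Z' U)) = Λ F := rfl
    rw [this, h0, dist_eq_norm, zero_sub, norm_neg] at z3
    have := (Complex.abs_re_le_norm (Q O)).trans z3
    have h5 : 0 < (Q O).re := hpos0
    rw [abs_of_pos h5] at this
    linarith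
  set Z'' : (Lk ℤ → G) → Fin M → ℂ := fun V => Z' (shift (ev ℤ 1) V) with hZ''
  have hZ''l : Loc Z'' := Loc.shift hZ'l _
  have hF1 : Λ (fm τ 0 (1 + 0) O Z'') = Λ F := by
    rw [← hΛ.tr (ev ℤ 1) F hFl]
    congr 1
    funext V
    simp only [hF, hZ'']
    unfold fm
    rw [obs_refl hd, add_zero, one_smul]
    congr 2
    simp [path, seg, shift]
  have hdZ : DependsOn Z'' (hs 1 ((0 : ℕ) : ℤ)) := by
    intro U V hUV
    refine z2 fun l hl => ?_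
    unfold shift
    refine hUV _ ?_
    have h1 : (l.1 + ev ℤ l.2) 1 ≤ 0 - 1 := hl.2
    show (l.1 + ev ℤ 1 + ev ℤ l.2) 1 ≤ ((0 : ℕ) : ℤ)
    simp only [Pi.add_apply] at h1 ⊢
    have h2 : ev ℤ 1 1 = 1 := by simp [ev]
    rw [h2]
    push_cast
    linarith
  have hdO : DependsOn O (hs 1 ((1 : ℕ) : ℤ)) := dep_mono hd' fun l hl => by
    have : (l.1 + ev ℤ l.2) 1 ≤ 0 := hl.2
    show (l.1 + ev ℤ l.2) 1 ≤ ((1 : ℕ) : ℤ)
    push_cast
    linarith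
  obtain ⟨r1, -, r3⟩ := hR G σ N π hπ M τ hτ β Λ hΛ 0 1 0 O Z'' hl hZ''l hdO hdZ
  rw [hF1] at r1
  have h6 : 0 < ‖Λ F‖ ^ 2 := by positivity
  unfold vv
  rcases r3.lt_or_eq with h7 | h7
  · exact h7
  · rw [← h7, zero_mul] at r1
    linarith

/-- **The base case.** -/
theorem base (hP : T_PUSH) (hD : T_DLR2) (hR : T_RP1) (hpos : S_POS) (hOB : T_OBS)
    (hπ : Continuous π) (hτ : Continuous τ) (hπi : Function.Injective π)
    (hw : ∃ w : Fin M → ℂ, w ≠ 0 ∧ ∀ z ∈ Subgroup.center G, act τ z w = w) (hβ : 0 < β)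
    (hΛ : State σ π β Λ) : ∃ q : ℝ, 0 < q ∧ Rate τ Λ q 0 := by
  obtain ⟨O, s, hO, hs0, hd, hcov, hne⟩ := hOB G N π hπ hπi M τ hτ hw
  have hd : DependsOn O (pl s) := hd
  have hl : Loc O := ⟨hO, _, (box_finite s).subset (fun l hl => hl.1), hd⟩
  have a0 := (v0 (τ := τ) hpos hπ hΛ hO hd hne).2
  have a1 := v1 hP hD hR hpos hπ hτ hπi hβ hΛ hO hd hcov hne
  have hd1 : DependsOn O (hs 1 0) := by
    refine dep_mono hd ?_
    rintro l ⟨-, -, h2, -, h3⟩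
    show (l.1 + ev ℤ l.2) 1 ≤ 0
    rw [Pi.add_apply, h2, ev_ne h3, add_zero]
  have hq : 0 < vv τ Λ 0 O 1 / (2 * vv τ Λ 0 O 0) := by positivity
  refine ⟨_, hq, O, s, s.toNat, hO, ?_, by omega, ?_⟩
  · refine dep_mono hd ?_
    rintro l ⟨h1, h2, -, h3, -⟩
    refine ⟨h1, ?_⟩
    show (l.1 + ev ℤ l.2) 0 ≤ -((0 : ℕ) : ℤ)
    rw [Pi.add_apply, h2, ev_ne h3]
    simp
  · have := ratio (v := vv τ Λ 0 O) (k := 0) hq.le a0 (by
      rw [zero_add, div_mul_eq_mul_div, div_lt_iff₀ (by positivity)]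
      nlinarith) (fun j _ => logconv hR hπ hτ hΛ 0 hl hd1 (by omega)) s.toNat
    rw [zero_add] at this
    exact ⟨this.1, this.2.1⟩

/-- **Rates at all depths.** -/
theorem all (hP : T_PUSH) (hG : T_GAV) (hD : T_DLR2) (hR : T_RP1) (hpos : S_POS) (hOB : T_OBS)
    (hπ : Continuous π) (hτ : Continuous τ) (hπi : Function.Injective π)
    (hw : ∃ w : Fin M → ℂ, w ≠ 0 ∧ ∀ z ∈ Subgroup.center G, act τ z w = w) (hβ : 0 < β)
    (hΛ : State σ π β Λ) : ∃ q : ℝ, 0 < q ∧ ∀ t, Rate τ Λ q t := by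
  obtain ⟨q, hq, h0⟩ := base hP hD hR hpos hOB hπ hτ hπi hw hβ hΛ
  refine ⟨q, hq, fun t => ?_⟩
  induction t with
  | zero => exact h0
  | succ t ih => exact step hP hG hD hR hπ hτ hπi hβ hΛ hq ih

end Pool.Agent.H189.SC.MAIN
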