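import Pool.Agent.H189.SC.St
import Pool.Agent.TH964.CF.P_DLR2

/-!
# One-link conditional expectations (after TH964/CF/P_DLR2)
-/

namespace Pool.Agent.H189.SC.DLR2

open MeasureTheory Pool.Agent.TH964.CF
open Pool.Agent.TH964.CF.DLR2 hiding main

theorem main : T_DLR2 := by
  intro G _ _ _ _ _ _ _ _ σ _ _ N π hπ M β
  refine ⟨fun V _ _ _ e F hF => ⟨cont_ol σ hπ β e hF, fun S hS => dep_ol σ π β e F S hS,
    fun C hC U => norm_ol σ hπ β e C hC U⟩, ?_⟩
  intro Λ hΛ C Φ hC hΦ e hCe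
  have hF : Loc fun U : Lk ℤ → G => star (C U) ⬝ᵥ Φ U := by
    obtain ⟨c1, S1, f1, d1⟩ := hC
    obtain ⟨c2, S2, f2, d2⟩ := hΦ
    refine ⟨?_, S1 ∪ S2, f1.union f2, ?_⟩
    · exact (continuous_star.comp c1).dotProduct c2
    · intro U U' hU
      have e1 : C U = C U' := d1 fun l hl => hU l (Or.inl hl)
      have e2 : Φ U = Φ U' := d2 fun l hl => hU l (Or.inr hl)
      show star (C U) ⬝ᵥ Φ U = star (C U') ⬝ᵥ Φ U'
      rw [e1, e2]
  have h1 : (fun U => star (C U) ⬝ᵥ ol σ π β e Φ U) =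
      ol σ π β e fun U => star (C U) ⬝ᵥ Φ U := by
    funext U
    have hc : Continuous fun y => Real.exp (β * loc π e (Function.update U e y)) •
        Φ (Function.update U e y) :=
      (cont_w1 hπ β e U).smul (hΦ.1.comp (cont_upd e U))
    have hi := integrable_of_cont σ hc
    let L : (Fin M → ℂ) →ₗ[ℝ] ℂ :=
      { toFun := fun v => star (C U) ⬝ᵥ v
        map_add' := fun v w => dotProduct_add _ _ _
        map_smul' := fun c v => dotProduct_smul _ _ _ }
    have h2 := (LinearMap.toContinuousLinearMap L).integral_comp_comm hi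
    have h3 : ∀ v, LinearMap.toContinuousLinearMap L v = star (C U) ⬝ᵥ v := fun v => rfl
    simp only [h3] at h2
    unfold ol
    simp only [hCe]
    rw [dotProduct_smul, ← h2]
    simp only [dotProduct_smul]
  rw [h1]
  exact hΛ.dlr e _ hF

end Pool.Agent.H189.SC.DLR2
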