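import Pool.Agent.H189.SC.St
import Pool.Agent.TH964.CF.P_ELIM

/-!
# Elimination of one link (after TH964/CF/P_ELIM, for functions with values in another space)
-/

namespace Pool.Agent.H189.SC.ELIM

open MeasureTheory Function Pool.Agent.TH964.CF Pool.Agent.TH964.CF.ELIM

theorem main (h : S_DEN) : T_ELIM := by
  intro G _ _ _ _ _ _ _ _ σ _ _ N π hπ hinj M β hβ j c s hcs hsc e he hec hej S hS Y hY hYd ε hε
  set e' : Lk ℤ := (e.1 - ev ℤ j, e.2) with he'
  set T0 : Set (Lk ℤ) := box (s + 1) ∩ hs j (c - 1) with hT0
  set T : Set (Lk ℤ) := (S ∪ T0) \ {e, e'} with hT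
  have hne : e ≠ e' := by
    intro h
    have := congrFun (Prod.ext_iff.1 h).1 j
    simp only [he', Pi.sub_apply, ev_apply, if_true] at this
    omega
  -- `e'` is in `T0`
  have he'T : e' ∈ T0 := by
    refine ⟨fun m => ?_, ?_⟩
    · have h1 := he m
      have h2 : 0 ≤ ev ℤ j m ∧ ev ℤ j m ≤ 1 := by rw [ev_apply]; split_ifs <;> simp
      simp only [he', Pi.add_apply, Pi.sub_apply] at h1 ⊢
      constructor <;> linarith
    · simp only [hs, he', Set.mem_ofPred_eq, Pi.add_apply, Pi.sub_apply, ev_apply]
      rw [if_pos trivial, if_neg (Ne.symm hej)]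
      linarith
  have hrd := rr_depends π j c s hcs e he hec hej
  -- the weight
  set rho : (Lk ℤ → G) → ℝ := fun V => Real.exp (β * rr π j e' V) with hrho
  have hrhoc : Continuous rho := by
    exact Real.continuous_exp.comp (continuous_const.mul (continuous_rr π hπ j e'))
  have hrho0 : ∀ V, rho V ≠ 0 := fun V => (Real.exp_pos _).ne'
  have hrhod : DependsOn rho T0 := by
    intro V V' hV
    simp only [hrho]
    rw [hrd hV]
  -- the function to be approximated
  set cfg : G → (Lk ℤ → G) → G → (Lk ℤ → G) :=
    fun x V y => update (update (ret T V) e x) e' y with hcfg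
  set F : G × (Lk ℤ → G) → Fin M → ℂ := fun q =>
    ∫ y, Real.exp (β * rt π (q.1 * y⁻¹)) • (rho (cfg q.1 q.2 y) • Y (cfg q.1 q.2 y)) ∂σ with hF
  have hcfgc : Continuous fun q : (G × (Lk ℤ → G)) × G => cfg q.1.1 q.1.2 q.2 := by
    simp only [hcfg]
    exact (((continuous_ret T).comp (continuous_snd.comp continuous_fst)).update e
      (continuous_fst.comp continuous_fst)).update e' continuous_snd
  have hFc : Continuous F := by
    have := continuous_parametric_integral_of_continuous (μ := σ) (s := Set.univ)
      (f := fun (q : G × (Lk ℤ → G)) (y : G) =>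
        Real.exp (β * rt π (q.1 * y⁻¹)) • (rho (cfg q.1 q.2 y) • Y (cfg q.1 q.2 y)))
      (by
        have hA : Continuous fun q : (G × (Lk ℤ → G)) × G =>
            Real.exp (β * rt π (q.1.1 * q.2⁻¹)) := by
          refine Real.continuous_exp.comp (continuous_const.mul ((continuous_rt π hπ).comp ?_))
          exact (continuous_fst.comp continuous_fst).mul continuous_snd.inv
        exact hA.smul ((hrhoc.comp hcfgc).smul (hY.comp hcfgc))) isCompact_univ
    simpa [hF] using this
  obtain ⟨f, hf, hfF⟩ := h G σ N π hπ hinj β hβ (Lk ℤ → G) M F hFc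
    (ε * Real.exp (-(6 * N) * β)) (by positivity)
  refine ⟨fun V => (rho V)⁻¹ • f (V e', ret T V), ?_, ?_, ?_⟩
  · exact (hrhoc.inv₀ hrho0).smul (hf.comp ((continuous_apply e').prodMk (continuous_ret T)))
  · intro V V' hV
    have h1 : rho V = rho V' := hrhod fun l hl => hV l (Or.inr hl)
    have h2 : V e' = V' e' := hV e' (Or.inr he'T)
    have h3 : ret T V = ret T V' := by
      funext l
      unfold ret
      split_ifs with hl
      · exact hV l hl.1
      · rfl
    simp only [h1, h2, h3]
  · intro U hU
    -- the local action
    have hloc : ∀ y, Real.exp (β * loc π e' (update U e' y)) =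
        Real.exp (β * rt π (U e * y⁻¹)) * rho (update U e' y) := by
      intro y
      rw [loc_eq π j e' hej.symm, ← Real.exp_add, ← mul_add]
      have : plaq (update U e' y) e'.1 e'.2 j = y * (U e)⁻¹ :=
        plaq_triv j c e hec hej U hU y
      rw [this, ← rt_inv π (U e * y⁻¹)]
      simp
    have hret : ∀ y, ret T (update U e' y) = ret T U := by
      intro y
      funext l
      unfold ret
      split_ifs with hl
      · rw [update_of_ne]
        intro hle
        exact hl.2 (by simp [hle])
      · rfl
    have hY' : ∀ y, Y (update U e' y) = Y (cfg (U e) U y) := by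
      intro y
      refine hYd fun l hl => ?_
      simp only [hcfg]
      by_cases h1 : l = e'
      · subst h1; simp
      · rw [update_of_ne h1, update_of_ne h1]
        by_cases h2 : l = e
        · subst h2; simp
        · rw [update_of_ne h2]
          unfold ret
          rw [if_pos]
          refine ⟨?_, by simp [h1, h2]⟩
          rcases hl with hl | hl
          · rcases hl with hl | hl
            · exact absurd hl h2
            · exact Or.inl hl
          · exact Or.inr hl
    have hrho' : ∀ y, rho (update U e' y) = rho (cfg (U e) U y) := by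
      intro y
      refine hrhod fun l hl => ?_
      simp only [hcfg]
      by_cases h1 : l = e'
      · subst h1; simp
      · rw [update_of_ne h1, update_of_ne h1]
        by_cases h2 : l = e
        · subst h2; simp
        · rw [update_of_ne h2]
          unfold ret
          rw [if_pos]
          exact ⟨Or.inr hl, by simp [h1, h2]⟩
    set D : ℝ := ∫ y, Real.exp (β * loc π e' (update U e' y)) ∂σ with hD
    have hcont : Continuous fun y : G => loc π e' (update U e' y) :=
      (continuous_loc π hπ e').comp (continuous_const.update e' continuous_id)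
    have hDge : Real.exp (-(6 * N) * β) ≤ D := by
      have h1 : ∫ _y : G, Real.exp (-(6 * N) * β) ∂σ ≤ D := by
        refine integral_mono (integrable_const _) ?_ fun y => ?_
        · exact (Real.continuous_exp.comp (continuous_const.mul hcont)).integrable_of_hasCompactSupport
            (HasCompactSupport.of_compactSpace _)
        · refine Real.exp_le_exp.2 ?_
          have := loc_ge π e' (update U e' y)
          nlinarith
      simpa using h1
    have hDpos : 0 < D := lt_of_lt_of_le (Real.exp_pos _) hDge
    have hI1 : ∫ y, Real.exp (β * loc π e' (update U e' y)) •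
        ((rho (update U e' y))⁻¹ • f ((update U e' y) e', ret T (update U e' y))) ∂σ =
        ∫ y, Real.exp (β * rt π (U e * y⁻¹)) • f (y, ret T U) ∂σ := by
      refine integral_congr_ae (Filter.Eventually.of_forall fun y => ?_)
      simp only
      rw [hloc, smul_smul, mul_assoc, mul_inv_cancel₀ (hrho0 _), mul_one, hret, update_self]
    have hI2 : ∫ y, Real.exp (β * loc π e' (update U e' y)) • Y (update U e' y) ∂σ =
        F (U e, ret T U) := by
      simp only [hF]
      refine integral_congr_ae (Filter.Eventually.of_forall fun y => ?_)
      simp only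
      have hrr : ret T (ret T U) = ret T U := by
        funext l
        unfold ret
        split_ifs <;> rfl
      have hcc : cfg (U e) (ret T U) y = cfg (U e) U y := by
        simp only [hcfg, hrr]
      rw [hloc, hY', hrho', hcc, smul_smul]
    unfold ol
    rw [hI1, hI2, ← smul_sub, norm_smul, norm_inv, Real.norm_of_nonneg hDpos.le]
    have := hfF (U e) (ret T U)
    rw [inv_mul_le_iff₀ hDpos]
    refine this.trans ?_
    rw [mul_comm]
    exact mul_le_mul_of_nonneg_right hDge hε.le

end Pool.Agent.H189.SC.ELIM
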