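import Pool.Agent.H189.SC.Final
import Pool.Agent.TH964.CF.Stm3

/-!
# Finite volume
-/

namespace Pool.Agent.H189.SC.MAIN

open MeasureTheory Filter Pool.Agent.TH964.CF Pool.Agent.TH964.CF.BASIC Topology

set_option linter.unusedSectionVars false

variable {G : Type} [Group G] [TopologicalSpace G] [IsTopologicalGroup G] [CompactSpace G]
  [T2Space G] [SecondCountableTopology G] [MeasurableSpace G] [BorelSpace G] {σ : Measure G}
  [IsProbabilityMeasure σ] [σ.IsHaarMeasure] {N : ℕ} {π : G →* Matrix.unitaryGroup (Fin N) ℂ}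
  {M : ℕ} {τ : G →* Matrix.unitaryGroup (Fin M) ℂ}
  {β : ℝ}

theorem cast_add {n : ℕ} (x y : Fin 4 → ℤ) :
    (fun i => ((x + y) i : ZMod n)) = (fun i => (x i : ZMod n)) + fun i => (y i : ZMod n) := by
  funext i
  simp

theorem cast_ev {n : ℕ} (l : ℕ) (i : Fin 4) :
    (fun k => ((l • ev ℤ i) k : ZMod n)) = l • ev (ZMod n) i := by
  funext k
  by_cases h : k = i
  · subst h
    simp [ev]
  · simp [ev, h]

theorem seg_per {n : ℕ} (U : Lk (ZMod n) → G) (x : Fin 4 → ℤ) (i : Fin 4) (l : ℕ) :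
    seg (per U) x i l = seg U (fun k => (x k : ZMod n)) i l := by
  induction l with
  | zero => rfl
  | succ l ih =>
    rw [seg_succ, seg_succ, ih]
    congr 1
    unfold per
    simp only
    rw [cast_add, cast_ev]

theorem rect_per {n : ℕ} (U : Lk (ZMod n) → G) (x : Fin 4 → ℤ) (i j : Fin 4) (a b : ℕ) :
    rect (per U) x i j a b = rect U (fun k => (x k : ZMod n)) i j a b := by
  unfold rect
  rw [seg_per, seg_per, seg_per, seg_per, cast_add, cast_add, cast_ev, cast_ev]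

/-- **The Wilson loops on large even tori.** -/
theorem torus_lower (hP : T_PUSH) (hG : T_GAV) (hD : T_DLR2) (hR : T_RP1) (hW : T_WIL)
    (hpos : S_POS) (hOB : T_OBS) (hCL : S_CL) (hEX : S_EX) (hSYM : T_SYM) (hπ : Continuous π) (hτ : Continuous τ)
    (hπi : Function.Injective π)
    (hw : ∃ w : Fin M → ℂ, w ≠ 0 ∧ ∀ z ∈ Subgroup.center G, act τ z w = w) (hβ : 0 < β) :
    ∃ q : ℝ, 0 < q ∧ ∀ t : ℕ, ∃ c : ℝ, 0 < c ∧ ∃ k₀ : ℕ, ∀ k, k₀ ≤ k → ∃ m₀ : ℕ, ∀ m : ℕ, m₀ ≤ m →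
      ∀ (x : Fin 4 → ZMod (2 * m + 2)) (i j : Fin 4), i ≠ j →
      c * q ^ (2 * k) ≤ (∫ U, Matrix.trace (τ (rect U x i j (2 * t) (2 * k)) :
        Matrix (Fin M) (Fin M) ℂ) ∂gibbs σ π β (2 * m + 2)).re := by
  obtain ⟨q, hq, h⟩ := unif_w (σ := σ) hP hG hD hR hW hpos hOB hCL hπ hτ hπi hw hβ
  refine ⟨q, hq, fun t => ?_⟩
  obtain ⟨c, hc, k₀, h1⟩ := h t
  refine ⟨c / 2, by positivity, k₀, fun k hk => ?_⟩
  have key : ∃ m₀ : ℕ, ∀ m : ℕ, m₀ ≤ m → c / 2 * q ^ (2 * k) ≤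
      (∫ U, wf τ t (2 * k) (per U) ∂gibbs σ π β (2 * m + 2)).re := by
    by_contra hcon
    push Not at hcon
    set S : Set ℕ := {m | (∫ U, wf τ t (2 * k) (per U) ∂gibbs σ π β (2 * m + 2)).re <
      c / 2 * q ^ (2 * k)} with hS
    have hne : (atTop ⊓ 𝓟 S : Filter ℕ).NeBot := by
      rw [← frequently_mem_iff_neBot, frequently_atTop]
      intro a
      obtain ⟨m, hm, hm2⟩ := hcon a
      exact ⟨m, hm, hm2⟩
    obtain ⟨𝓕, Λ, hne𝓕, h𝓕, hΛ, hlim⟩ := hEX G σ N π hπ β (atTop ⊓ 𝓟 S) hne inf_le_left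
    have t1 := (Complex.continuous_re.tendsto _).comp (hlim _ (wf_loc hτ t (2 * k)))
    have t2 : (Λ (wf τ t (2 * k))).re ≤ c / 2 * q ^ (2 * k) := by
      refine le_of_tendsto t1 ?_
      have : S ∈ 𝓕 := h𝓕 (mem_inf_of_right (mem_principal_self S))
      filter_upwards [this] with m hm
      exact le_of_lt hm
    have t3 := h1 Λ hΛ k hk
    have : 0 < c * q ^ (2 * k) := by positivity
    linarith
  obtain ⟨m₀, hm₀⟩ := key
  refine ⟨m₀, fun m hm x i j hij => ?_⟩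
  refine (hm₀ m hm).trans (le_of_eq ?_)
  congr 1
  rw [hSYM G σ N π hπ M τ hτ β (2 * m + 2) x i j hij]
  have e1 : ∀ U : Lk (ZMod (2 * m + 2)) → G, wf τ t (2 * k) (per U) = Matrix.trace
      (τ (rect U (fun i => ((-((2 * t) • ev ℤ 0) : Fin 4 → ℤ) i : ZMod (2 * m + 2))) 0 1 (2 * t)
        (2 * k)) : Matrix (Fin M) (Fin M) ℂ) := fun U => by
    unfold wf
    rw [rect_per]
  simp only [e1]
  rw [hSYM G σ N π hπ M τ hτ β (2 * m + 2) _ 0 1 (by decide)]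

/-- The arithmetic of the contradiction. -/
theorem no_area {M κ : ℝ} (hκ : 0 < κ) {K : ℝ} {W : ℕ → ℕ → ℕ → ℝ}
    (h1 : ∀ R : ℕ, ∃ c : ℝ, 0 < c ∧ ∃ T₀ : ℕ, ∀ T, T₀ ≤ T → ∃ n₀ : ℕ, ∀ n, n₀ ≤ n → Even n →
      c * Real.exp (-(M * (2 * T))) ≤ W n (2 * R) (2 * T))
    (h2 : ∀ a b : ℕ, 1 ≤ a → 1 ≤ b → ∀ ε : ℝ, 0 < ε → ∃ n₀ : ℕ, ∀ n, n₀ ≤ n →
      W n a b ≤ K * Real.exp (-(κ * (a * b))) + ε) : False := by
  obtain ⟨R, hR⟩ := exists_nat_ge ((|M| + 1) / κ)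
  have hR1 : |M| + 1 ≤ κ * R := by
    rwa [div_le_iff₀ hκ, mul_comm] at hR
  have hR0 : 1 ≤ R := by
    rcases Nat.eq_zero_or_pos R with h | h
    · subst h
      have := abs_nonneg M
      simp at hR1
      linarith
    · exact h
  obtain ⟨c, hc, T₀, h3⟩ := h1 R
  have h4 : ∀ T : ℕ, T₀ ≤ T → 1 ≤ T → c ≤ |K| * Real.exp (-(2 * (T : ℝ))) := by
    intro T hT hT1
    obtain ⟨n₀, hn₀⟩ := h3 T hT
    have h5 : c * Real.exp (-(M * (2 * T))) ≤
        K * Real.exp (-(κ * (((2 * R : ℕ) : ℝ) * ((2 * T : ℕ) : ℝ)))) := by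
      refine le_of_forall_pos_le_add fun ε hε => ?_
      obtain ⟨n₁, hn₁⟩ := h2 (2 * R) (2 * T) (by omega) (by omega) ε hε
      exact (hn₀ (2 * (n₀ + n₁)) (by omega) (even_two_mul _)).trans
        (hn₁ (2 * (n₀ + n₁)) (by omega))
    have h6 : K * Real.exp (-(κ * (((2 * R : ℕ) : ℝ) * ((2 * T : ℕ) : ℝ)))) ≤
        |K| * Real.exp (-(2 * (T : ℝ))) * Real.exp (-(M * (2 * T))) := by
      rw [mul_assoc, ← Real.exp_add]
      refine (mul_le_mul_of_nonneg_right (le_abs_self K) (Real.exp_pos _).le).trans ?_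
      refine mul_le_mul_of_nonneg_left (Real.exp_le_exp.2 ?_) (abs_nonneg K)
      push_cast
      have hT0 : (1 : ℝ) ≤ T := by exact_mod_cast hT1
      have h7 : (|M| + 1) * T ≤ κ * R * T := mul_le_mul_of_nonneg_right hR1 (by linarith)
      have h8 : M * T ≤ |M| * T := mul_le_mul_of_nonneg_right (le_abs_self M) (by linarith)
      have h9 : 0 ≤ |M| * T := by positivity
      nlinarith
    exact le_of_mul_le_mul_right (h5.trans h6) (Real.exp_pos _)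
  have h10 : Tendsto (fun T : ℕ => |K| * Real.exp (-(2 * (T : ℝ)))) atTop (𝓝 (|K| * 0)) := by
    refine Tendsto.const_mul _ (Real.tendsto_exp_neg_atTop_nhds_zero.comp ?_)
    exact Tendsto.const_mul_atTop (by norm_num) tendsto_natCast_atTop_atTop
  rw [mul_zero] at h10
  have h11 : c ≤ 0 := by
    refine ge_of_tendsto h10 ?_
    filter_upwards [eventually_ge_atTop T₀, eventually_ge_atTop 1] with T hT hT1
    exact h4 T hT hT1
  linarith

end Pool.Agent.H189.SC.MAIN
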