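import Pool.Agent.H189.SC.Base

/-!
# The final estimates
-/

namespace Pool.Agent.H189.SC.MAIN

open MeasureTheory Filter Pool.Agent.TH964.CF Pool.Agent.TH964.CF.BASIC Topology

set_option linter.unusedSectionVars false

variable {G : Type} [Group G] [TopologicalSpace G] [IsTopologicalGroup G] [CompactSpace G]
  [T2Space G] [SecondCountableTopology G] [MeasurableSpace G] [BorelSpace G] {σ : Measure G}
  [IsProbabilityMeasure σ] [σ.IsHaarMeasure] {N : ℕ} {π : G →* Matrix.unitaryGroup (Fin N) ℂ}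
  {M : ℕ} {τ : G →* Matrix.unitaryGroup (Fin M) ℂ}
  {β : ℝ} {Λ : ((Lk ℤ → G) → ℂ) → ℂ}

/-- The Wilson loop with sides `2 t` and `m`. -/
noncomputable def wf (τ : G →* Matrix.unitaryGroup (Fin M) ℂ) (t m : ℕ) (U : Lk ℤ → G) : ℂ :=
  Matrix.trace (τ (rect U (-((2 * t) • ev ℤ 0)) 0 1 (2 * t) m) : Matrix (Fin M) (Fin M) ℂ)

theorem wf_loc (hτ : Continuous τ) (t m : ℕ) : Loc (wf τ t m) := by
  obtain ⟨S, hS, hd⟩ := dep_rect (G := G) (-((2 * t) • ev ℤ 0)) 0 1 (2 * t) m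
  refine ⟨(continuous_subtype_val.comp (hτ.comp (rect_cont _ _ _ _ _))).matrix_trace, S, hS,
    fun U V h => ?_⟩
  unfold wf
  rw [show rect U _ _ _ _ _ = rect V _ _ _ _ _ from hd h]

/-- Lower bound of the Wilson loops from one functional. -/
theorem wil_lower (hR : T_RP1) (hW : T_WIL) (hπ : Continuous π) (hτ : Continuous τ) (hΛ : State σ π β Λ) {q : ℝ}
    (hq : 0 < q) {t : ℕ} {Z : (Lk ℤ → G) → Fin M → ℂ} {s : ℤ} {k : ℕ} (hZ : Continuous Z)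
    (hZ1 : DependsOn Z (box s ∩ hs 0 (-t))) (hk : s ≤ k) (h0 : 0 < vv τ Λ t Z k)
    (h1 : q * vv τ Λ t Z k < vv τ Λ t Z (k + 1)) {C : ℝ} (hC : ∀ U, ‖Z U‖ ≤ C) {k' : ℕ}
    (hk' : k ≤ k') :
    vv τ Λ t Z k ^ 2 / (((M : ℝ) ^ 2 * C ^ 4 + 1) * q ^ (2 * k)) * q ^ (2 * k') ≤
      (Λ (wf τ t (2 * k'))).re := by
  obtain ⟨m, rfl⟩ := Nat.exists_eq_add_of_le hk'
  obtain ⟨-, -, a3⟩ := Rate.large hR hπ hτ hΛ hq.le hZ hZ1 hk h0 h1 m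
  have a4 := hW G σ N π hπ M τ hτ β Λ hΛ t (2 * (k + m)) Z (Loc_of hZ hZ1)
    (dep_mono hZ1 Set.inter_subset_right) C hC
  change ‖Λ (fm τ t (2 * (k + m)) Z Z)‖ ^ 2 ≤ (M : ℝ) ^ 2 * C ^ 4 * (Λ (wf τ t (2 * (k + m)))).re
    at a4
  set W := (Λ (wf τ t (2 * (k + m)))).re
  have a5 : vv τ Λ t Z (k + m) ^ 2 ≤ ‖Λ (fm τ t (2 * (k + m)) Z Z)‖ ^ 2 := by
    rw [← sq_abs]
    exact pow_le_pow_left₀ (abs_nonneg _) (Complex.abs_re_le_norm _) 2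
  have a6 : (vv τ Λ t Z k * q ^ m) ^ 2 ≤ vv τ Λ t Z (k + m) ^ 2 :=
    pow_le_pow_left₀ (by positivity) a3 2
  have a7 : 0 < (vv τ Λ t Z k * q ^ m) ^ 2 := by positivity
  have a8 : 0 ≤ (M : ℝ) ^ 2 * C ^ 4 := by positivity
  have a9 : 0 < W := by
    by_contra hcon
    push Not at hcon
    have := mul_nonneg a8 (neg_nonneg.2 hcon)
    nlinarith
  have e : vv τ Λ t Z k ^ 2 / (((M : ℝ) ^ 2 * C ^ 4 + 1) * q ^ (2 * k)) * q ^ (2 * (k + m)) =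
      (vv τ Λ t Z k * q ^ m) ^ 2 / ((M : ℝ) ^ 2 * C ^ 4 + 1) := by
    have h3 : q ^ (2 * k) ≠ 0 := by positivity
    have h4 : q ^ (2 * (k + m)) = q ^ (2 * k) * q ^ (2 * m) := by
      rw [← pow_add]
      congr 1
      ring
    rw [h4]
    field_simp
    ring
  rw [e, div_le_iff₀ (by positivity)]
  nlinarith

/-- A rate that is uniform in the state. -/
theorem unif_q (hP : T_PUSH) (hG : T_GAV) (hD : T_DLR2) (hR : T_RP1) (hpos : S_POS) (hOB : T_OBS)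
    (hCL : S_CL) (hπ : Continuous π) (hτ : Continuous τ) (hπi : Function.Injective π)
    (hw : ∃ w : Fin M → ℂ, w ≠ 0 ∧ ∀ z ∈ Subgroup.center G, act τ z w = w) (hβ : 0 < β) :
    ∃ q : ℝ, 0 < q ∧ ∀ Λ : ((Lk ℤ → G) → ℂ) → ℂ, State σ π β Λ → ∀ t, Rate τ Λ q t := by
  obtain ⟨O, s, hO, hs0, hd, hcov, hne⟩ := hOB G N π hπ hπi M τ hτ hw
  have hd : DependsOn O (pl s) := hd
  have hl : Loc O := ⟨hO, _, (box_finite s).subset (fun l hl => hl.1), hd⟩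
  have hd1 : DependsOn O (hs 1 0) := by
    refine dep_mono hd ?_
    rintro l ⟨-, -, h2, -, h3⟩
    show (l.1 + ev ℤ l.2) 1 ≤ 0
    rw [Pi.add_apply, h2, ev_ne h3, add_zero]
  obtain ⟨C, hC⟩ := isCompact_univ.exists_bound_of_continuousOn hO.continuousOn
  have hC' : ∀ U, ‖O U‖ ≤ C := fun U => hC U (Set.mem_univ U)
  have hC0 : 0 ≤ C := (norm_nonneg _).trans (hC' 1)
  -- a uniform lower bound of `v_1`
  obtain ⟨δ, hδ, hδ1⟩ : ∃ δ : ℝ, 0 < δ ∧ ∀ Λ : ((Lk ℤ → G) → ℂ) → ℂ, State σ π β Λ →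
      δ < vv τ Λ 0 O 1 := by
    by_contra hcon
    push Not at hcon
    choose Λs hΛs hΛs1 using fun m : ℕ => hcon (1 / (m + 1)) (by positivity)
    obtain ⟨𝓕, Λ, hne𝓕, h𝓕, hΛ, hlim⟩ := hCL G σ N π hπ β Λs hΛs atTop inferInstance
    have h1 := v1 hP hD hR hpos hπ hτ hπi hβ hΛ hO hd hcov hne
    have h2 : Tendsto (fun m => vv τ (Λs m) 0 O 1) 𝓕 (𝓝 (vv τ Λ 0 O 1)) :=
      (Complex.continuous_re.tendsto _).comp (hlim _ (fm_loc hτ _ _ hl hl))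
    have h3 : Tendsto (fun m : ℕ => 1 / ((m : ℝ) + 1)) 𝓕 (𝓝 0) :=
      tendsto_one_div_add_atTop_nhds_zero_nat.mono_left h𝓕
    have := le_of_tendsto_of_tendsto' h2 h3 hΛs1
    linarith
  refine ⟨δ / ((M : ℝ) ^ 2 * (C * C) + 1), by positivity, fun Λ hΛ => ?_⟩
  set q := δ / ((M : ℝ) ^ 2 * (C * C) + 1) with hqdef
  have hq : 0 < q := by positivity
  have a0 := (v0 (τ := τ) hpos hπ hΛ hO hd hne).2
  have a1 := hδ1 Λ hΛ
  have a2 : vv τ Λ 0 O 0 ≤ (M : ℝ) ^ 2 * (C * C) :=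
    (Complex.re_le_norm _).trans (hΛ.bd _ (fm_loc hτ _ _ hl hl) _ (fm_bd 0 _ hC' hC'))
  have hrate0 : Rate τ Λ q 0 := by
    refine ⟨O, s, s.toNat, hO, ?_, by omega, ?_⟩
    · refine dep_mono hd ?_
      rintro l ⟨h1, h2, -, h3, -⟩
      refine ⟨h1, ?_⟩
      show (l.1 + ev ℤ l.2) 0 ≤ -((0 : ℕ) : ℤ)
      rw [Pi.add_apply, h2, ev_ne h3]
      simp
    · have := ratio (v := vv τ Λ 0 O) (k := 0) hq.le a0 (by
        rw [zero_add, hqdef, div_mul_eq_mul_div, div_lt_iff₀ (by positivity)]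
        nlinarith) (fun j _ => logconv hR hπ hτ hΛ 0 hl hd1 (by omega)) s.toNat
      rw [zero_add] at this
      exact ⟨this.1, this.2.1⟩
  intro t
  induction t with
  | zero => exact hrate0
  | succ t ih => exact step hP hG hD hR hπ hτ hπi hβ hΛ hq ih

/-- The Wilson loops are bounded below uniformly in the state. -/
theorem unif_w (hP : T_PUSH) (hG : T_GAV) (hD : T_DLR2) (hR : T_RP1) (hW : T_WIL) (hpos : S_POS)
    (hOB : T_OBS) (hCL : S_CL) (hπ : Continuous π) (hτ : Continuous τ) (hπi : Function.Injective π)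
    (hw : ∃ w : Fin M → ℂ, w ≠ 0 ∧ ∀ z ∈ Subgroup.center G, act τ z w = w) (hβ : 0 < β) :
    ∃ q : ℝ, 0 < q ∧ ∀ t : ℕ, ∃ c : ℝ, 0 < c ∧ ∃ k₀ : ℕ, ∀ Λ : ((Lk ℤ → G) → ℂ) → ℂ,
      State σ π β Λ → ∀ k, k₀ ≤ k → c * q ^ (2 * k) ≤ (Λ (wf τ t (2 * k))).re := by
  obtain ⟨q, hq, hrate⟩ := unif_q (σ := σ) hP hG hD hR hpos hOB hCL hπ hτ hπi hw hβ
  refine ⟨q, hq, fun t => ?_⟩
  by_contra hcon
  push Not at hcon
  choose Λs hΛs ks hks hlt using fun m : ℕ => hcon (1 / (m + 1)) (by positivity) m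
  obtain ⟨𝓕, Λ, hne𝓕, h𝓕, hΛ, hlim⟩ := hCL G σ N π hπ β Λs hΛs atTop inferInstance
  obtain ⟨Z, s, k, hZ, hZ1, hk, h0, h1⟩ := hrate Λ hΛ t
  obtain ⟨C, hC⟩ := isCompact_univ.exists_bound_of_continuousOn hZ.continuousOn
  have hC' : ∀ U, ‖Z U‖ ≤ C := fun U => hC U (Set.mem_univ U)
  have hl := Loc_of hZ hZ1
  have t1 : Tendsto (fun m => vv τ (Λs m) t Z k) 𝓕 (𝓝 (vv τ Λ t Z k)) :=
    (Complex.continuous_re.tendsto _).comp (hlim _ (fm_loc hτ _ _ hl hl))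
  have t2 : Tendsto (fun m => vv τ (Λs m) t Z (k + 1)) 𝓕 (𝓝 (vv τ Λ t Z (k + 1))) :=
    (Complex.continuous_re.tendsto _).comp (hlim _ (fm_loc hτ _ _ hl hl))
  have t3 : Tendsto (fun m : ℕ => 1 / ((m : ℝ) + 1)) 𝓕 (𝓝 0) :=
    tendsto_one_div_add_atTop_nhds_zero_nat.mono_left h𝓕
  set v := vv τ Λ t Z k with hv
  set D := ((M : ℝ) ^ 2 * C ^ 4 + 1) * q ^ (2 * k) with hD'
  have hD0 : 0 < D := by positivity
  have e1 : ∀ᶠ m in 𝓕, v / 2 < vv τ (Λs m) t Z k := t1.eventually (lt_mem_nhds (by linarith))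
  have e2 : ∀ᶠ m in 𝓕, q * vv τ (Λs m) t Z k < vv τ (Λs m) t Z (k + 1) :=
    (t1.const_mul q).eventually_lt t2 h1
  have e3 : ∀ᶠ m : ℕ in 𝓕, 1 / ((m : ℝ) + 1) < (v / 2) ^ 2 / D :=
    t3.eventually (gt_mem_nhds (by positivity))
  have e4 : ∀ᶠ m : ℕ in 𝓕, k ≤ m := h𝓕 (eventually_ge_atTop k)
  obtain ⟨m, m1, m2, m3, m4⟩ := (e1.and (e2.and (e3.and e4))).exists
  have b1 := wil_lower hR hW hπ hτ (hΛs m) hq hZ hZ1 hk (by linarith) m2 hC' (m4.trans (hks m))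
  have b2 := hlt m
  have b3 : (v / 2) ^ 2 / D ≤ vv τ (Λs m) t Z k ^ 2 / D := by
    gcongr
  have b4 : 1 / ((m : ℝ) + 1) * q ^ (2 * ks m) ≤ vv τ (Λs m) t Z k ^ 2 / D * q ^ (2 * ks m) :=
    mul_le_mul_of_nonneg_right (m3.le.trans b3) (by positivity)
  linarith

end Pool.Agent.H189.SC.MAIN
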