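import Pool.Agent.H189.SC.St
import Pool.Agent.TH964.CF.P_GAV

/-!
# The gauge average (after TH964/CF/P_GAV)
-/

namespace Pool.Agent.H189.SC.GAV

open MeasureTheory Filter Pool.Agent.TH964.CF
open Pool.Agent.TH964.CF.GAV hiding main

theorem main : T_GAV := by
  intro G _ _ _ _ _ _ _ _ σ _ _ N π hπ M τ hτ
  refine ⟨fun j c s h1 h2 Z hZ hd => ⟨gav_cont hτ _ _ hZ, gav_dep _ _ hd,
    gav_cov hτ h1 h2 hZ hd⟩, ?_⟩
  intro β Λ hΛ C Z hC hZ P p₀ hp hcov
  have hF : Loc fun U => star (C U) ⬝ᵥ Z U := by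
    obtain ⟨hC1, S, hS, hCS⟩ := hC
    obtain ⟨hZ1, T, hT, hZT⟩ := hZ
    refine ⟨?_, S ∪ T, hS.union hT, ?_⟩
    · simp only [dotProduct]
      refine continuous_finsetSum _ fun i _ => ?_
      have h1 : Continuous fun U => C U i := (continuous_apply i).comp hC1
      have h2 : Continuous fun U => Z U i := (continuous_apply i).comp hZ1
      exact (continuous_star.comp h1).mul h2
    · intro U U' h
      simp only
      rw [hCS fun l hl => h l (Or.inl hl), hZT fun l hl => h l (Or.inr hl)]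
  rw [← hΛ.ga P _ hF]
  congr 1
  funext U
  have e1 : ∀ k : P → G, star (C (gt (ext P k) U)) ⬝ᵥ Z (gt (ext P k) U) =
      dotL (star (C U)) (act τ (ext P k p₀)⁻¹ (Z (gt (ext P k) U))) := by
    intro k
    rw [hcov _ (fun p hp' => ext_notMem hp' k) U, star_act, dotL_apply]
  simp_rw [e1]
  rw [ContinuousLinearMap.integral_comp_comm _ (integrand_int hτ P p₀ hZ.1 U), dotL_apply]
  rfl

end Pool.Agent.H189.SC.GAV
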