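import Pool.Agent.H189.SC.St
import Pool.Agent.TH964.CF.Basic

/-!
# The assembly
-/

namespace Pool.Agent.H189.SC.MAIN

open MeasureTheory Filter Pool.Agent.TH964.CF Pool.Agent.TH964.CF.BASIC

set_option linter.unusedSectionVars false

variable {G : Type} [Group G] [TopologicalSpace G] [IsTopologicalGroup G] [CompactSpace G]
  [T2Space G] [SecondCountableTopology G] [MeasurableSpace G] [BorelSpace G] {σ : Measure G}
  [IsProbabilityMeasure σ] [σ.IsHaarMeasure] {N : ℕ} {π : G →* Matrix.unitaryGroup (Fin N) ℂ}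
  {M : ℕ} {τ : G →* Matrix.unitaryGroup (Fin M) ℂ}
  {β : ℝ} {Λ : ((Lk ℤ → G) → ℂ) → ℂ}

/-- The numbers `v_k`. -/
noncomputable def vv (τ : G →* Matrix.unitaryGroup (Fin M) ℂ) (Λ : ((Lk ℤ → G) → ℂ) → ℂ)
    (t : ℕ) (Z : (Lk ℤ → G) → Fin M → ℂ) (k : ℕ) : ℝ := (Λ (fm τ t (2 * k) Z Z)).re

theorem logconv (hR : T_RP1) (hπ : Continuous π) (hτ : Continuous τ) (hΛ : State σ π β Λ) (t : ℕ) {s : ℤ}
    {Z : (Lk ℤ → G) → Fin M → ℂ} (hZ : Loc Z) (hZ1 : DependsOn Z (hs 1 s)) {k : ℕ} (hk : s ≤ k) :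
    vv τ Λ t Z (k + 1) ^ 2 ≤ vv τ Λ t Z k * vv τ Λ t Z (k + 2) := by
  have h1 : DependsOn Z (hs 1 (k : ℕ)) := dep_mono hZ1 fun l hl => le_trans hl hk
  have h2 : DependsOn Z (hs 1 ((k + 2 : ℕ) : ℤ)) := dep_mono hZ1 fun l hl => by
    have : (l.1 + ev ℤ l.2) 1 ≤ s := hl
    show (l.1 + ev ℤ l.2) 1 ≤ ((k + 2 : ℕ) : ℤ)
    push_cast
    linarith
  have h3 := (hR G σ N π hπ M τ hτ β Λ hΛ t k (k + 2) Z Z hZ hZ h1 h2).1
  have e : k + (k + 2) = 2 * (k + 1) := by ring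
  rw [e] at h3
  unfold vv
  refine le_trans ?_ h3
  rw [← sq_abs]
  exact pow_le_pow_left₀ (abs_nonneg _) (Complex.abs_re_le_norm _) 2

/-- The ratio condition persists. -/
theorem ratio {v : ℕ → ℝ} {q : ℝ} (hq : 0 ≤ q) {k : ℕ} (h0 : 0 < v k)
    (h1 : q * v k < v (k + 1)) (hl : ∀ j, k ≤ j → v (j + 1) ^ 2 ≤ v j * v (j + 2)) (m : ℕ) :
    0 < v (k + m) ∧ q * v (k + m) < v (k + m + 1) ∧ v k * q ^ m ≤ v (k + m) := by
  induction m with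
  | zero => simp [h0, h1]
  | succ m ih =>
    obtain ⟨a1, a2, a3⟩ := ih
    have a4 := hl (k + m) (by omega)
    have a5 : 0 < v (k + m + 1) := by
      have := mul_nonneg hq a1.le
      linarith
    refine ⟨a5, ?_, ?_⟩
    · have : k + (m + 1) = k + m + 1 := by ring
      rw [this]
      by_contra hcon
      push Not at hcon
      have h5 : v (k + m) * v (k + m + 2) ≤ v (k + m) * (q * v (k + m + 1)) :=
        mul_le_mul_of_nonneg_left hcon a1.le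
      have h6 : v (k + m) * (q * v (k + m + 1)) < v (k + m + 1) * v (k + m + 1) := by
        have := mul_lt_mul_of_pos_right a2 a5
        linarith
      nlinarith
    · have : k + (m + 1) = k + m + 1 := by ring
      rw [this, pow_succ]
      have := mul_le_mul_of_nonneg_left a3 hq
      nlinarith

/-- Lower bound of the rate at depth `t`. -/
def Rate (τ : G →* Matrix.unitaryGroup (Fin M) ℂ) (Λ : ((Lk ℤ → G) → ℂ) → ℂ) (q : ℝ) (t : ℕ) :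
    Prop :=
  ∃ (Z : (Lk ℤ → G) → Fin M → ℂ) (s : ℤ) (k : ℕ), Continuous Z ∧
    DependsOn Z (box s ∩ hs 0 (-t)) ∧ s ≤ k ∧ 0 < vv τ Λ t Z k ∧
    q * vv τ Λ t Z k < vv τ Λ t Z (k + 1)

theorem hs_of_box {s : ℤ} : box s ⊆ hs 1 s := fun l hl => (hl 1).2

theorem Rate.large (hR : T_RP1) (hπ : Continuous π) (hτ : Continuous τ) (hΛ : State σ π β Λ) {q : ℝ} (hq : 0 ≤ q)
    {t : ℕ} {Z : (Lk ℤ → G) → Fin M → ℂ} {s : ℤ} {k : ℕ} (hZ : Continuous Z)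
    (hZ1 : DependsOn Z (box s ∩ hs 0 (-t))) (hk : s ≤ k) (h0 : 0 < vv τ Λ t Z k)
    (h1 : q * vv τ Λ t Z k < vv τ Λ t Z (k + 1)) (m : ℕ) :
    0 < vv τ Λ t Z (k + m) ∧ q * vv τ Λ t Z (k + m) < vv τ Λ t Z (k + m + 1) ∧
      vv τ Λ t Z k * q ^ m ≤ vv τ Λ t Z (k + m) := by
  refine ratio hq h0 h1 (fun j hj => ?_) m
  exact logconv hR hπ hτ hΛ t (Loc_of hZ hZ1)
    (dep_mono hZ1 (Set.inter_subset_left.trans hs_of_box)) (by
      have : (k : ℤ) ≤ j := by exact_mod_cast hj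
      linarith)

/-- The integrand at depth `t + 1`. -/
theorem fm_push (t m : ℕ) (Z : (Lk ℤ → G) → Fin M → ℂ) (U : Lk ℤ → G) :
    fm τ t m (fun U => act τ (U (Pi.single 0 (-(t : ℤ)) - ev ℤ 0, 0))⁻¹ (Z U))
      (fun U => act τ (U (Pi.single 0 (-(t : ℤ)) - ev ℤ 0, 0))⁻¹ (Z U)) U =
    fm τ (t + 1) m Z Z U := by
  have e1 : (Pi.single 0 (-(t : ℤ)) - ev ℤ 0 : Fin 4 → ℤ) = -((t + 1) • ev ℤ 0) := by
    ext i
    by_cases hi : i = 0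
    · subst hi
      simp [ev]
      ring
    · simp [ev, hi]
  unfold fm
  rw [e1]
  have e2 : Pool.Agent.TH964.CF.refl 1 (shift (m • ev ℤ 1) U) (-((t + 1) • ev ℤ 0), 0) =
      U (-((t + 1) • ev ℤ 0) + m • ev ℤ 1, 0) := by
    unfold Pool.Agent.TH964.CF.refl shift
    rw [if_neg (show ¬ (0 : Fin 4) = 1 by decide)]
    congr 2
    have : rs 1 (-((t + 1) • ev ℤ 0) : Fin 4 → ℤ) = -((t + 1) • ev ℤ 0) := by
      ext i
      by_cases hi : i = 1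
      · subst hi
        simp [rs, ev]
      · simp [rs, hi]
    simp only [this]
  beta_reduce
  rw [e2, act_adj, inv_inv, ← act_mul, ← act_mul]
  congr 2
  unfold path
  rw [seg_succ', seg_succ' U (-((t + 1) • ev ℤ 0))]
  have e3 : (-((t + 1) • ev ℤ 0) + m • ev ℤ 1 + ev ℤ 0 : Fin 4 → ℤ) =
      -(t • ev ℤ 0) + m • ev ℤ 1 := by
    rw [add_smul, one_smul]
    abel
  have e4 : (-((t + 1) • ev ℤ 0) + ev ℤ 0 : Fin 4 → ℤ) = -(t • ev ℤ 0) := by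
    rw [add_smul, one_smul]
    abel
  rw [e3, e4]
  group

/-- Symmetry. -/
theorem herm (hR : T_RP1) (hπ : Continuous π) (hτ : Continuous τ) (hΛ : State σ π β Λ) (t k : ℕ)
    {Φ₁ Φ₂ : (Lk ℤ → G) → Fin M → ℂ} (h1 : Loc Φ₁) (h2 : Loc Φ₂) {s : ℤ} (hsk : s ≤ k)
    (d1 : DependsOn Φ₁ (box s)) (d2 : DependsOn Φ₂ (box s)) :
    Λ (fm τ t (2 * k) Φ₁ Φ₂) = starRingEnd ℂ (Λ (fm τ t (2 * k) Φ₂ Φ₁)) := by
  have hsub : box s ⊆ hs 1 (k : ℕ) := fun l hl => (hl 1).2.trans hsk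
  have := (hR G σ N π hπ M τ hτ β Λ hΛ t k k Φ₁ Φ₂ h1 h2 (dep_mono d1 hsub) (dep_mono d2 hsub)).2.1
  rwa [← two_mul] at this

/-- A replacement in the second argument gives a replacement in both. -/
theorem quad (hR : T_RP1) (hπ : Continuous π) (hτ : Continuous τ) (hΛ : State σ π β Λ) (t k : ℕ)
    {Φ Φ' : (Lk ℤ → G) → Fin M → ℂ} (h1 : Loc Φ) (h2 : Loc Φ') {s : ℤ} (hsk : s ≤ k)
    (d1 : DependsOn Φ (box s)) (d2 : DependsOn Φ' (box s))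
    (e1 : Λ (fm τ t (2 * k) Φ' Φ') = Λ (fm τ t (2 * k) Φ' Φ))
    (e2 : Λ (fm τ t (2 * k) Φ Φ') = Λ (fm τ t (2 * k) Φ Φ)) :
    Λ (fm τ t (2 * k) Φ' Φ') = Λ (fm τ t (2 * k) Φ Φ) := by
  rw [e1, herm hR hπ hτ hΛ t k h2 h1 hsk d2 d1, e2, ← herm hR hπ hτ hΛ t k h1 h1 hsk d1 d1]

theorem staple_box {s : ℤ} {e : Lk ℤ} (he : e ∈ box s) :
    {l : Lk ℤ | ∃ j, j ≠ e.2 ∧ l ∈ ({(e.1 + ev ℤ e.2, j), (e.1 + ev ℤ j, e.2), (e.1, j),
          (e.1 - ev ℤ j, e.2), (e.1 - ev ℤ j + ev ℤ e.2, j), (e.1 - ev ℤ j, j)} :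
            Set (Lk ℤ))} ⊆ box (s + 1) := by
  rintro l ⟨j, -, hl⟩ i
  have h1 := he i
  have h2 := ev_nonneg j i
  have h3 : ev ℤ j i ≤ 1 := by
    unfold ev
    by_cases h : i = j
    · subst h; simp
    · simp [h]
  have h4 := ev_nonneg e.2 i
  simp only [Pi.add_apply] at h1
  simp only [Set.mem_insert_iff, Set.mem_singleton_iff] at hl
  rcases hl with rfl | rfl | rfl | rfl | rfl | rfl <;>
    simp only [Pi.add_apply, Pi.sub_apply] <;> constructor <;> linarith [h1.1, h1.2]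

theorem single_eq (t : ℕ) : (Pi.single 0 (-(t : ℤ)) : Fin 4 → ℤ) = -(t • ev ℤ 0) := by
  ext i
  by_cases hi : i = 0
  · subst hi
    simp [ev]
  · simp [ev, hi]

/-- **The induction step.** -/
theorem step (hP : T_PUSH) (hG : T_GAV) (hD : T_DLR2) (hR : T_RP1) (hπ : Continuous π) (hτ : Continuous τ)
    (hπi : Function.Injective π) (hβ : 0 < β) (hΛ : State σ π β Λ) {q : ℝ} (hq : 0 < q) {t : ℕ}
    (h : Rate τ Λ q t) : Rate τ Λ q (t + 1) := by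
  obtain ⟨Z, s, k, hZ, hZ1, hk, h0, h1⟩ := h
  obtain ⟨s', hss, hs2⟩ : ∃ s' : ℤ, s ≤ s' ∧ (t : ℤ) + 1 ≤ s' :=
    ⟨max s (t + 1), le_max_left _ _, le_max_right _ _⟩
  have hs0 : 0 ≤ s' := by omega
  obtain ⟨b0, b1, -⟩ := Rate.large hR hπ hτ hΛ hq.le hZ hZ1 hk h0 h1 (s' + 2).toNat
  obtain ⟨k', hk', hk'2⟩ : ∃ k' : ℕ, k' = k + (s' + 2).toNat ∧ s' + 2 ≤ k' :=
    ⟨_, rfl, by push_cast; omega⟩
  rw [← hk'] at b0 b1
  have hZ' : DependsOn Z (box s' ∩ hs 0 (-t)) :=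
    dep_mono hZ1 (Set.inter_subset_inter_left _ (box_mono hss))
  obtain ⟨c1, c2, c3⟩ := (hG G σ N π hπ M τ hτ).1 0 (-t) s' (by omega) (by omega) Z hZ hZ'
  set Z₁ := gav σ τ (sl 0 (-t) s') (Pi.single 0 (-(t : ℤ))) Z with hZ₁
  -- the gauge average does not change the numbers
  have hgav : ∀ κ : ℕ, k' ≤ κ → Λ (fm τ t (2 * κ) Z₁ Z₁) = Λ (fm τ t (2 * κ) Z Z) := by
    intro κ hκ
    have hκ' : (k' : ℤ) ≤ κ := by exact_mod_cast hκ
    have key : ∀ Φ₁ : (Lk ℤ → G) → Fin M → ℂ, Loc Φ₁ → DependsOn Φ₁ (box s') →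
        Λ (fm τ t (2 * κ) Φ₁ Z₁) = Λ (fm τ t (2 * κ) Φ₁ Z) := by
      intro Φ₁ hΦ₁ hd
      have e1 : fm τ t (2 * κ) Φ₁ Z₁ = fun U => star (CC τ t (2 * κ) Φ₁ U) ⬝ᵥ Z₁ U :=
        funext (fm_eq _ _ _ _)
      have e2 : fm τ t (2 * κ) Φ₁ Z = fun U => star (CC τ t (2 * κ) Φ₁ U) ⬝ᵥ Z U :=
        funext (fm_eq _ _ _ _)
      rw [e1, e2, hZ₁]
      refine (hG G σ N π hπ M τ hτ).2 β Λ hΛ _ _ (CC_loc hτ _ _ hΦ₁) (Loc_of hZ hZ') _ _ ?_ ?_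
      · simp only [sl, Finset.mem_filter, Fintype.mem_piFinset, Finset.mem_Icc]
        refine ⟨fun i => ?_, by simp⟩
        by_cases hi : i = 0
        · subst hi
          simp
          omega
        · simp [hi]
          omega
      · intro g hg U
        rw [single_eq]
        refine CC_gt t (2 * κ) hd (by push_cast; omega) hs0 (fun p hp => ?_) U
        refine hg p fun hmem => ?_
        simp only [sl, Finset.mem_filter, Fintype.mem_piFinset, Finset.mem_Icc] at hmem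
        have := (hmem.1 1).2
        omega
    refine quad hR hπ hτ hΛ t κ (Loc_of hZ hZ') (Loc_of c1 c2) (s := s') (by omega)
      (dep_mono hZ' Set.inter_subset_left) (dep_mono c2 Set.inter_subset_left)
      (key _ (Loc_of c1 c2) (dep_mono c2 Set.inter_subset_left))
      (key _ (Loc_of hZ hZ') (dep_mono hZ' Set.inter_subset_left))
  -- the push lemma
  set Q : ((Lk ℤ → G) → Fin M → ℂ) → ℂ × ℂ := fun Φ =>
    (Λ (fm τ t (2 * k') Φ Φ), Λ (fm τ t (2 * (k' + 1)) Φ Φ)) with hQ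
  have hQ1 : ∀ Φ, Continuous Φ → DependsOn Φ (box (s' + 1) ∩ hs 0 (-t)) → ∀ ε : ℝ, 0 < ε →
      ∃ δ : ℝ, 0 < δ ∧ ∀ Φ', Continuous Φ' → DependsOn Φ' (box (s' + 1) ∩ hs 0 (-t)) →
        (∀ U, ‖Φ' U - Φ U‖ ≤ δ) → dist (Q Φ') (Q Φ) ≤ ε := by
    intro Φ hΦ hd ε hε
    obtain ⟨C, hC⟩ := isCompact_univ.exists_bound_of_continuousOn hΦ.continuousOn
    have hC' : ∀ U, ‖Φ U‖ ≤ C := fun U => hC U (Set.mem_univ U)
    have hC0 : 0 ≤ C := (norm_nonneg _).trans (hC' 1)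
    refine ⟨min 1 (ε / ((M : ℝ) ^ 2 * (2 * C + 1) + 1)), lt_min one_pos (by positivity), ?_⟩
    intro Φ' hΦ' hd' hdiff
    set δ := min 1 (ε / ((M : ℝ) ^ 2 * (2 * C + 1) + 1)) with hδ
    have hδ0 : 0 < δ := lt_min one_pos (by positivity)
    have hδ1 : δ ≤ 1 := min_le_left _ _
    have hδ2 : (M : ℝ) ^ 2 * (δ * (2 * C + δ)) ≤ ε := by
      have h3 : δ * ((M : ℝ) ^ 2 * (2 * C + 1) + 1) ≤ ε := by
        rw [← le_div_iff₀ (by positivity)]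
        exact min_le_right _ _
      have h4 : (M : ℝ) ^ 2 * (δ * (2 * C + δ)) ≤ (M : ℝ) ^ 2 * (δ * (2 * C + 1)) := by
        gcongr
      nlinarith
    have h5 : ∀ κ : ℕ, ‖Λ (fm τ t κ Φ' Φ') - Λ (fm τ t κ Φ Φ)‖ ≤ ε := fun κ =>
      st_diff hΛ (fm_loc hτ _ _ (Loc_of hΦ' hd') (Loc_of hΦ' hd'))
        (fm_loc hτ _ _ (Loc_of hΦ hd) (Loc_of hΦ hd))
        fun U => (fm_diff t κ hC' hdiff U).trans hδ2
    rw [Prod.dist_eq]
    exact max_le (by rw [dist_eq_norm]; exact h5 _) (by rw [dist_eq_norm]; exact h5 _)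
  have hQ2 : ∀ Φ, Continuous Φ → DependsOn Φ (box (s' + 1) ∩ hs 0 (-t)) → ∀ e : Lk ℤ,
      e ∈ box s' → e.1 0 = -(t : ℤ) - 1 → e.2 ≠ 0 → Q (ol σ π β e Φ) = Q Φ := by
    intro Φ hΦ hd e he he1 he2
    obtain ⟨o1, o2, -⟩ := (hD G σ N π hπ M β).1 (Fin M → ℂ) e Φ hΦ
    have o3 : DependsOn (ol σ π β e Φ) (box (s' + 1)) :=
      dep_mono (o2 _ hd) (Set.union_subset Set.inter_subset_left (staple_box he))
    have l1 : Loc Φ := Loc_of hΦ hd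
    have l2 : Loc (ol σ π β e Φ) := ⟨o1, _, box_finite _, o3⟩
    have hd2 : DependsOn Φ (box (s' + 1)) := dep_mono hd Set.inter_subset_left
    have key : ∀ κ : ℕ, k' ≤ κ → Λ (fm τ t (2 * κ) (ol σ π β e Φ) (ol σ π β e Φ)) =
        Λ (fm τ t (2 * κ) Φ Φ) := by
      intro κ hκ
      have hκ' : (k' : ℤ) ≤ κ := by exact_mod_cast hκ
      have key2 : ∀ Φ₁ : (Lk ℤ → G) → Fin M → ℂ, Loc Φ₁ → DependsOn Φ₁ (box (s' + 1)) →
          Λ (fm τ t (2 * κ) Φ₁ (ol σ π β e Φ)) = Λ (fm τ t (2 * κ) Φ₁ Φ) := by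
        intro Φ₁ hΦ₁ hd₁
        have e1 : fm τ t (2 * κ) Φ₁ (ol σ π β e Φ) =
            fun U => star (CC τ t (2 * κ) Φ₁ U) ⬝ᵥ ol σ π β e Φ U := funext (fm_eq _ _ _ _)
        have e2 : fm τ t (2 * κ) Φ₁ Φ = fun U => star (CC τ t (2 * κ) Φ₁ U) ⬝ᵥ Φ U :=
          funext (fm_eq _ _ _ _)
        rw [e1, e2]
        refine (hD G σ N π hπ M β).2 Λ hΛ _ _ (CC_loc hτ _ _ hΦ₁) l1 e fun U y => ?_
        exact CC_upd t (2 * κ) hd₁ (by push_cast; omega) (box_mono (by omega) he) he1 he2 U y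
      exact quad hR hπ hτ hΛ t κ l1 l2 (s := s' + 1) (by omega) hd2 o3 (key2 _ l2 o3)
        (key2 _ l1 hd2)
    simp only [hQ]
    rw [key k' le_rfl, key (k' + 1) (by omega)]
  obtain ⟨ε, hε, hε1, hε2⟩ : ∃ ε : ℝ, 0 < ε ∧ ε < vv τ Λ t Z k' ∧
      q * (vv τ Λ t Z k' + ε) < vv τ Λ t Z (k' + 1) - ε := by
    set a := vv τ Λ t Z k'
    set b := vv τ Λ t Z (k' + 1)
    refine ⟨min (a / 2) ((b - q * a) / (2 * (q + 1))), lt_min (by linarith)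
      (div_pos (by linarith) (by positivity)), ?_, ?_⟩
    · exact (min_le_left _ _).trans_lt (by linarith)
    · have h6 : min (a / 2) ((b - q * a) / (2 * (q + 1))) * (2 * (q + 1)) ≤ b - q * a := by
        rw [← le_div_iff₀ (by positivity)]
        exact min_le_right _ _
      nlinarith
  obtain ⟨Z', z1, z2, z3⟩ := hP G σ N π hπ hπi M τ hτ β hβ (ℂ × ℂ) Q 0 (-t) s' (by omega) (by omega)
    hQ1 hQ2 Z₁ c1 c2 c3 ε hε
  have hZ'' : ∀ m : ℕ, fm τ t m (fun U => act τ (U (Pi.single 0 (-(t : ℤ)) - ev ℤ 0, 0))⁻¹ (Z' U))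
      (fun U => act τ (U (Pi.single 0 (-(t : ℤ)) - ev ℤ 0, 0))⁻¹ (Z' U)) =
      fm τ (t + 1) m Z' Z' := fun m => funext (fm_push t m Z')
  rw [Prod.dist_eq] at z3
  simp only [hQ, hZ''] at z3
  rw [hgav k' le_rfl, hgav (k' + 1) (by omega)] at z3
  have z4 := (le_max_left _ _).trans z3
  have z5 := (le_max_right _ _).trans z3
  rw [dist_eq_norm] at z4 z5
  have z6 := (Complex.abs_re_le_norm _).trans z4
  have z7 := (Complex.abs_re_le_norm _).trans z5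
  rw [Complex.sub_re, abs_le] at z6 z7
  change _ ≤ vv τ Λ (t + 1) Z' k' - vv τ Λ t Z k' ∧
    vv τ Λ (t + 1) Z' k' - vv τ Λ t Z k' ≤ ε at z6
  change _ ≤ vv τ Λ (t + 1) Z' (k' + 1) - vv τ Λ t Z (k' + 1) ∧
    vv τ Λ (t + 1) Z' (k' + 1) - vv τ Λ t Z (k' + 1) ≤ ε at z7
  refine ⟨Z', s' + 1, k', z1, ?_, by omega, by linarith [z6.1], ?_⟩
  · have : -((t + 1 : ℕ) : ℤ) = -(t : ℤ) - 1 := by push_cast; ring
    rw [this]
    exact z2
  · nlinarith [z6.2, z7.1]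

end Pool.Agent.H189.SC.MAIN
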