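import Pool.Agent.TH24.GL.P_VEX

/-!
# Covariant vectors (after TH24/GL/P_VEX, for a second representation)
-/

set_option autoImplicit false

namespace Pool.Agent.H189.SC.VEX

open MeasureTheory

/-- The covariant vectors in the representation `τ`; `π` is injective. -/
theorem main (G : Type) [Group G] [TopologicalSpace G] [IsTopologicalGroup G] [CompactSpace G]
    (N : ℕ) (π : G →* Matrix.unitaryGroup (Fin N) ℂ) (hπ : Continuous π)
    (hπi : Function.Injective π) (M : ℕ) (τ : G →* Matrix.unitaryGroup (Fin M) ℂ)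
    (hτ : Continuous τ) (hw : ∃ w : Fin M → ℂ, w ≠ 0 ∧ ∀ z ∈ Subgroup.center G,
      (τ z : Matrix (Fin M) (Fin M) ℂ).mulVec w = w) :
    ∃ (k : ℕ) (V : (Fin k → G) → Fin M → ℂ), 0 < k ∧ Continuous V ∧
      (∀ P, ∑ i, ‖V P i‖ ^ 2 ≤ 1) ∧ (∃ P, V P ≠ 0) ∧
      ∀ (u : G) (P : Fin k → G), V (fun i => u * P i * u⁻¹) =
        (τ u : Matrix (Fin M) (Fin M) ℂ).mulVec (V P) := by
  classical
  obtain ⟨w, hw0, hw⟩ := hw
  obtain ⟨k, h, hk, hcen⟩ := Pool.Agent.TH24.GL.VEX.exists_gen π hπi
  -- topology
  have hT2 : T2Space G := T2Space.of_injective_continuous hπi hπ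
  have hemb := hπ.isClosedEmbedding hπi
  have hsc : SecondCountableTopology (Matrix.unitaryGroup (Fin N) ℂ) := by
    have : SecondCountableTopology (Matrix (Fin N) (Fin N) ℂ) :=
      inferInstanceAs (SecondCountableTopology (Fin N → Fin N → ℂ))
    exact TopologicalSpace.Subtype.secondCountableTopology _
  have hscG : SecondCountableTopology G := hemb.isEmbedding.secondCountableTopology
  let _ : MeasurableSpace G := borel G
  have _ : BorelSpace G := ⟨rfl⟩
  set μ : Measure G := Measure.haarMeasure ⊤ with hμ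
  have hval : Continuous fun u : G => (π u : Matrix (Fin N) (Fin N) ℂ) :=
    continuous_subtype_val.comp hπ
  have hel : ∀ a b, Continuous fun u : G => (π u : Matrix (Fin N) (Fin N) ℂ) a b :=
    fun a b => hval.matrix_elem a b
  have hvec : Continuous fun u : G => (τ u : Matrix (Fin M) (Fin M) ℂ).mulVec w :=
    (continuous_subtype_val.comp hτ : Continuous fun u : G => (τ u : Matrix (Fin M) (Fin M) ℂ)).matrix_mulVec continuous_const
  -- the function `F`
  set F : G → ℝ := fun u => ∑ i, (star (w i) * (τ u : Matrix (Fin M) (Fin M) ℂ).mulVec w i).re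
    with hF
  have hFc : Continuous F := by
    apply continuous_finsetSum
    intro i _
    exact Complex.continuous_re.comp (continuous_const.mul ((continuous_apply i).comp hvec))
  set W : ℝ := ∑ i, ‖w i‖ ^ 2 with hW
  have hW0 : 0 < W := by
    obtain ⟨i, hi⟩ : ∃ i, w i ≠ 0 := by
      by_contra hcon
      push Not at hcon
      exact hw0 (funext hcon)
    exact Finset.sum_pos' (fun i _ => by positivity) ⟨i, Finset.mem_univ i, by positivity⟩
  have hFz : ∀ z ∈ Subgroup.center G, F z = W := by
    intro z hz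
    simp only [hF, hW, hw z hz]
    apply Finset.sum_congr rfl
    intro i _
    have : star (w i) * w i = ((‖w i‖ ^ 2 : ℝ) : ℂ) := by
      rw [mul_comm]
      have := Complex.mul_conj' (w i)
      push_cast
      exact this
    rw [this, Complex.ofReal_re]
  have hF1 : F 1 = W := hFz 1 (Subgroup.one_mem _)
  -- the distance to `h`
  set D : (Fin k → G) → ℝ := fun P => ∑ i, ∑ a, ∑ b,
    ‖(π (P i) : Matrix (Fin N) (Fin N) ℂ) a b - (π (h i) : Matrix (Fin N) (Fin N) ℂ) a b‖ with hD
  have hDc : Continuous D := by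
    apply continuous_finsetSum
    intro i _
    apply continuous_finsetSum
    intro a _
    apply continuous_finsetSum
    intro b _
    exact (((hel a b).comp (continuous_apply i)).sub continuous_const).norm
  have hDh : D h = 0 := by simp [hD]
  have hD0 : ∀ P, 0 ≤ D P := fun P => by
    simp only [hD]; positivity
  have hDeq : ∀ P, D P = 0 → P = h := by
    intro P hP
    funext i
    apply hπi
    apply Subtype.ext
    ext a b
    simp only [hD] at hP
    rw [Finset.sum_eq_zero_iff_of_nonneg (fun _ _ => by positivity)] at hP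
    have h1 := hP i (Finset.mem_univ i)
    rw [Finset.sum_eq_zero_iff_of_nonneg (fun _ _ => by positivity)] at h1
    have h2 := h1 a (Finset.mem_univ a)
    rw [Finset.sum_eq_zero_iff_of_nonneg (fun _ _ => by positivity)] at h2
    have h3 := h2 b (Finset.mem_univ b)
    rw [norm_eq_zero, sub_eq_zero] at h3
    exact h3
  have hconj : Continuous fun x : (Fin k → G) × G => fun i => x.2⁻¹ * x.1 i * x.2 := by
    fun_prop
  have hconjh : Continuous fun u : G => fun i => u⁻¹ * h i * u := by fun_prop
  obtain ⟨r, hr0, hr⟩ : ∃ r : ℝ, 0 < r ∧ ∀ u : G, F u ≤ W / 2 → r ≤ D (fun i => u⁻¹ * h i * u) := by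
    have hC : IsCompact {u : G | F u ≤ W / 2} := (isClosed_le hFc continuous_const).isCompact
    rcases Set.eq_empty_or_nonempty {u : G | F u ≤ W / 2} with he | hne
    · refine ⟨1, one_pos, fun u hu => ?_⟩
      have : u ∈ ({u : G | F u ≤ W / 2}) := hu
      rw [he] at this
      exact this.elim
    · obtain ⟨u0, hu0, hmin⟩ := hC.exists_isMinOn hne (hDc.comp hconjh).continuousOn
      refine ⟨D (fun i => u0⁻¹ * h i * u0), ?_, fun u hu => hmin hu⟩
      rcases (hD0 (fun i => u0⁻¹ * h i * u0)).lt_or_eq with h1 | h1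
      · exact h1
      · exfalso
        have h2 := hDeq _ h1.symm
        have h3 : u0 ∈ Subgroup.center G := by
          apply hcen
          intro i
          have h4 : u0⁻¹ * h i * u0 = h i := congrFun h2 i
          rw [mul_assoc, inv_mul_eq_iff_eq_mul] at h4
          exact h4.symm
        have h4 := hFz u0 h3
        have h5 : F u0 ≤ W / 2 := hu0
        linarith
  set φ : (Fin k → G) → ℝ := fun P => max 0 (r - D P) with hφ
  have hφc : Continuous φ := continuous_const.max (continuous_const.sub hDc)
  have hφ0 : ∀ P, 0 ≤ φ P := fun P => le_max_left _ _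
  have hφh : φ h = r := by
    simp only [hφ, hDh, sub_zero]
    exact max_eq_right hr0.le
  have hφF : ∀ u, φ (fun i => u⁻¹ * h i * u) ≠ 0 → W / 2 < F u := by
    intro u hu
    by_contra hcon
    push Not at hcon
    apply hu
    simp only [hφ]
    exact max_eq_left (by linarith [hr u hcon])
  -- the vectors
  set V : (Fin k → G) → Fin M → ℂ := fun P a =>
    ∫ u, (φ (fun i => u⁻¹ * P i * u) : ℂ) * (τ u : Matrix (Fin M) (Fin M) ℂ).mulVec w a ∂μ with hV
  have hjoint : ∀ a, Continuous (Function.uncurry fun (P : Fin k → G) (u : G) =>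
      (φ (fun i => u⁻¹ * P i * u) : ℂ) * (τ u : Matrix (Fin M) (Fin M) ℂ).mulVec w a) := by
    intro a
    exact (Complex.continuous_ofReal.comp (hφc.comp hconj)).mul
      (((continuous_apply a).comp hvec).comp continuous_snd)
  have hint : ∀ (P : Fin k → G) (a : Fin M), Integrable (fun u : G => (φ (fun i => u⁻¹ * P i * u) : ℂ) *
      (τ u : Matrix (Fin M) (Fin M) ℂ).mulVec w a) μ := by
    intro P a
    have hcP : Continuous fun u : G => fun i => u⁻¹ * P i * u := by fun_prop
    have : Continuous fun u : G => (φ (fun i => u⁻¹ * P i * u) : ℂ) *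
      (τ u : Matrix (Fin M) (Fin M) ℂ).mulVec w a :=
      (Complex.continuous_ofReal.comp (hφc.comp hcP)).mul ((continuous_apply a).comp hvec)
    exact this.integrable_of_hasCompactSupport (HasCompactSupport.of_compactSpace _)
  have hVc : Continuous V := by
    apply continuous_pi
    intro a
    have := continuous_parametric_integral_of_continuous (μ := μ) (hjoint a) isCompact_univ
    simpa only [Measure.restrict_univ] using this
  have hVcov : ∀ (u : G) (P : Fin k → G), V (fun i => u * P i * u⁻¹) =
      (τ u : Matrix (Fin M) (Fin M) ℂ).mulVec (V P) := by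
    intro u P
    funext a
    have e1 : V (fun i => u * P i * u⁻¹) a = ∫ g, (φ (fun i => g⁻¹ * P i * g) : ℂ) *
        (τ (u * g) : Matrix (Fin M) (Fin M) ℂ).mulVec w a ∂μ := by
      simp only [hV]
      rw [← integral_mul_left_eq_self _ u]
      congr 1
      funext g
      congr 3
      funext i
      group
    rw [e1]
    have e2 : ∀ g, (φ (fun i => g⁻¹ * P i * g) : ℂ) *
        (τ (u * g) : Matrix (Fin M) (Fin M) ℂ).mulVec w a =
        ∑ b, (τ u : Matrix (Fin M) (Fin M) ℂ) a b * ((φ (fun i => g⁻¹ * P i * g) : ℂ) *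
          (τ g : Matrix (Fin M) (Fin M) ℂ).mulVec w b) := by
      intro g
      rw [map_mul, Submonoid.coe_mul, ← Matrix.mulVec_mulVec]
      conv_lhs => rw [Matrix.mulVec, dotProduct]
      rw [Finset.mul_sum]
      apply Finset.sum_congr rfl
      intro b _
      ring
    simp only [e2]
    rw [integral_finsetSum _ fun b _ => (hint P b).const_mul _]
    simp only [integral_const_mul]
    rfl
  have hVh : V h ≠ 0 := by
    intro hcon
    have e1 : ∑ a, (star (w a) * V h a).re = ∫ u, φ (fun i => u⁻¹ * h i * u) * F u ∂μ := by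
      have e2 : ∀ a, (star (w a) * V h a).re = ∫ u, φ (fun i => u⁻¹ * h i * u) *
          (star (w a) * (τ u : Matrix (Fin M) (Fin M) ℂ).mulVec w a).re ∂μ := by
        intro a
        have h1 : star (w a) * V h a = ∫ u, star (w a) * ((φ (fun i => u⁻¹ * h i * u) : ℂ) *
            (τ u : Matrix (Fin M) (Fin M) ℂ).mulVec w a) ∂μ := by
          rw [integral_const_mul]
        rw [h1]
        have h2 := integral_re (𝕜 := ℂ) (μ := μ) ((hint h a).const_mul (star (w a)))
        have h3 : (∫ u, star (w a) * ((φ (fun i => u⁻¹ * h i * u) : ℂ) *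
            (τ u : Matrix (Fin M) (Fin M) ℂ).mulVec w a) ∂μ).re =
            ∫ u, (star (w a) * ((φ (fun i => u⁻¹ * h i * u) : ℂ) *
            (τ u : Matrix (Fin M) (Fin M) ℂ).mulVec w a)).re ∂μ := h2.symm
        rw [h3]
        congr 1
        funext u
        rw [mul_left_comm, Complex.re_ofReal_mul]
      rw [Finset.sum_congr rfl fun a _ => e2 a, ← integral_finsetSum]
      · congr 1
        funext u
        rw [← Finset.mul_sum]
      · intro a _
        have : Continuous fun u => φ (fun i => u⁻¹ * h i * u) *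
          (star (w a) * (τ u : Matrix (Fin M) (Fin M) ℂ).mulVec w a).re :=
          (hφc.comp hconjh).mul (Complex.continuous_re.comp
            (continuous_const.mul ((continuous_apply a).comp hvec)))
        exact this.integrable_of_hasCompactSupport (HasCompactSupport.of_compactSpace _)
    have e2 : 0 < ∫ u, φ (fun i => u⁻¹ * h i * u) * F u ∂μ := by
      apply Continuous.integral_pos_of_hasCompactSupport_nonneg_nonzero (x := 1)
      · exact (hφc.comp hconjh).mul hFc
      · exact HasCompactSupport.of_compactSpace _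
      · intro u
        show (0 : ℝ) ≤ φ (fun i => u⁻¹ * h i * u) * F u
        by_cases h1 : φ (fun i => u⁻¹ * h i * u) = 0
        · rw [h1, zero_mul]
        · exact mul_nonneg (hφ0 _) (by linarith [hφF u h1])
      · have : (fun i => (1 : G)⁻¹ * h i * 1) = h := by funext i; group
        rw [this, hφh, hF1]
        exact (mul_pos hr0 hW0).ne'
    rw [hcon] at e1
    simp only [Pi.zero_apply, mul_zero, Complex.zero_re, Finset.sum_const_zero] at e1
    linarith
  -- normalization
  have hnc : Continuous fun P => ∑ i, ‖V P i‖ ^ 2 :=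
    continuous_finsetSum _ fun i _ => (((continuous_apply i).comp hVc).norm.pow 2)
  obtain ⟨Mx, hMx⟩ : ∃ Mx : ℝ, ∀ P, ∑ i, ‖V P i‖ ^ 2 ≤ Mx := by
    obtain ⟨Mx, hMx⟩ := (isCompact_range hnc).bddAbove
    exact ⟨Mx, fun P => hMx ⟨P, rfl⟩⟩
  have hMx0 : 0 ≤ Mx := le_trans (by positivity) (hMx h)
  set c : ℝ := (Real.sqrt (Mx + 1))⁻¹ with hc
  have hc0 : 0 < c := by positivity
  have hc2 : c ^ 2 = (Mx + 1)⁻¹ := by
    rw [hc, inv_pow, Real.sq_sqrt (by linarith)]
  refine ⟨k, fun P i => (c : ℂ) * V P i, hk, ?_, ?_, ⟨h, ?_⟩, ?_⟩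
  · exact continuous_pi fun i => continuous_const.mul ((continuous_apply i).comp hVc)
  · intro P
    have e : ∑ i, ‖(c : ℂ) * V P i‖ ^ 2 = c ^ 2 * ∑ i, ‖V P i‖ ^ 2 := by
      rw [Finset.mul_sum]
      apply Finset.sum_congr rfl
      intro i _
      rw [norm_mul, mul_pow, Complex.norm_real, Real.norm_eq_abs, sq_abs]
    rw [e, hc2, inv_mul_le_iff₀ (by linarith)]
    linarith [hMx P]
  · intro h0
    apply hVh
    funext i
    have h1 := congrFun h0 i
    simp only [Pi.zero_apply, mul_eq_zero, Complex.ofReal_eq_zero] at h1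
    exact h1.resolve_left hc0.ne'
  · intro u P
    funext a
    show (c : ℂ) * V (fun i => u * P i * u⁻¹) a = _
    rw [hVcov]
    simp only [Matrix.mulVec, dotProduct]
    rw [Finset.mul_sum]
    apply Finset.sum_congr rfl
    intro b _
    ring

end Pool.Agent.H189.SC.VEX
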