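import Pool.Agent.H189.SC.St
import Pool.Agent.H189.SC.Vex
import Pool.Agent.TH964.CF.P_OBS

/-!
# The covariant observable (after TH964/CF/P_OBS)
-/

set_option autoImplicit false

namespace Pool.Agent.H189.SC.OBS

open MeasureTheory Pool.Agent.TH964.CF
open Pool.Agent.TH964.CF.OBS hiding main

theorem main : T_OBS := by
  classical
  intro G _ _ _ _ _ N π hπ hπi M τ hτ hw
  obtain ⟨k, V, hk, hV, -, ⟨P, hP⟩, hcov⟩ := VEX.main G N π hπ hπi M τ hτ hw
  refine ⟨fun U => V fun i : Fin k => rect U 0 2 3 (i.val + 1) 1, (k : ℤ) + 1, ?_, by positivity,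
    ?_, ?_, ?_⟩
  · exact hV.comp (continuous_pi fun i => continuous_rect _ _ _ _ _)
  · intro U U' h
    have key : ∀ (m n : ℕ), m ≤ k → n ≤ k → ∀ d : Fin 4, d = 2 ∨ d = 3 →
        U (m • ev ℤ 2 + n • ev ℤ 3, d) = U' (m • ev ℤ 2 + n • ev ℤ 3, d) :=
      fun m n hm hn d hd => h _ (mem_set k m n hm hn d hd)
    show V _ = V _
    congr 1
    funext i
    have hi := i.isLt
    unfold rect
    rw [seg_congr U U' 0 2 (i.val + 1) ?_, seg_congr U U' (0 + (i.val + 1) • ev ℤ 2) 3 1 ?_,
      seg_congr U U' (0 + 1 • ev ℤ 3) 2 (i.val + 1) ?_, seg_congr U U' 0 3 1 ?_]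
    · intro m hm
      have := key 0 0 (by omega) (by omega) 3 (Or.inr rfl)
      have e : (0 : Fin 4 → ℤ) + m • ev ℤ 3 = 0 • ev ℤ 2 + 0 • ev ℤ 3 := by
        have : m = 0 := by omega
        subst this
        simp
      rw [e]
      exact this
    · intro m hm
      have := key m 1 (by omega) (by omega) 2 (Or.inl rfl)
      have e : (0 : Fin 4 → ℤ) + 1 • ev ℤ 3 + m • ev ℤ 2 = m • ev ℤ 2 + 1 • ev ℤ 3 := by
        rw [zero_add, add_comm]
      rw [e]
      exact this
    · intro m hm
      have := key (i.val + 1) 0 (by omega) (by omega) 3 (Or.inr rfl)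
      have e : (0 : Fin 4 → ℤ) + (i.val + 1) • ev ℤ 2 + m • ev ℤ 3 =
          (i.val + 1) • ev ℤ 2 + 0 • ev ℤ 3 := by
        have : m = 0 := by omega
        subst this
        simp
      rw [e]
      exact this
    · intro m hm
      have := key m 0 (by omega) (by omega) 2 (Or.inl rfl)
      have e : (0 : Fin 4 → ℤ) + m • ev ℤ 2 = m • ev ℤ 2 + 0 • ev ℤ 3 := by
        simp
      rw [e]
      exact this
  · intro g U
    show V _ = act τ (g 0) (V _)
    unfold act
    rw [← hcov]
    congr 1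
    funext i
    exact rect_gt g U 0 2 3 _ _
  · set U : Lk ℤ → G := fun l => if h : ∃ i : Fin k, l = ((i.val + 1) • ev ℤ 2, (3 : Fin 4)) then
      P h.choose else 1 with hU
    have h2 : ∀ y, U (y, 2) = 1 := by
      intro y
      simp only [hU]
      rw [dif_neg]
      rintro ⟨i, hi⟩
      have h4 : (2 : Fin 4) = 3 := congrArg Prod.snd hi
      exact absurd h4 (by decide)
    have hinj : ∀ i j : Fin k, ((i.val + 1) • ev ℤ 2 : Fin 4 → ℤ) = (j.val + 1) • ev ℤ 2 → i = j := by
      intro i j hij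
      have := congrFun hij 2
      simp [ev] at this
      exact Fin.ext this
    have h3 : ∀ i : Fin k, U ((i.val + 1) • ev ℤ 2, 3) = P i := by
      intro i
      have hex : ∃ j : Fin k, (((i.val + 1) • ev ℤ 2, 3) : Lk ℤ) =
          ((j.val + 1) • ev ℤ 2, (3 : Fin 4)) := ⟨i, rfl⟩
      simp only [hU]
      rw [dif_pos hex]
      congr 1
      exact (hinj _ _ (congrArg Prod.fst hex.choose_spec)).symm
    have h0 : U (0, 3) = 1 := by
      simp only [hU]
      rw [dif_neg]
      rintro ⟨i, hi⟩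
      have := congrFun (congrArg Prod.fst hi) 2
      simp [ev] at this
      omega
    refine ⟨U, ?_⟩
    have hrect : (fun i : Fin k => rect U 0 2 3 (i.val + 1) 1) = P := by
      funext i
      unfold rect
      rw [seg_one U _ 2 _ h2, seg_one U _ 2 _ h2]
      have e1 : seg U (0 + (i.val + 1) • ev ℤ 2) 3 1 = P i := by
        rw [seg, seg, one_mul, zero_smul, add_zero, zero_add]
        exact h3 i
      have e2 : seg U 0 3 1 = 1 := by
        rw [seg, seg, one_mul, zero_smul, add_zero]
        exact h0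
      rw [e1, e2]
      simp
    show V _ ≠ 0
    rw [hrect]
    exact hP

end Pool.Agent.H189.SC.OBS
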