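import Pool.Agent.H189.SC.St
import Pool.Agent.TH964.CF.P_PUSH

/-!
# The push lemma (after TH964/CF/P_PUSH, for covariant functions in a second representation)
-/

set_option linter.unusedSectionVars false

namespace Pool.Agent.H189.SC.PUSH

open MeasureTheory Filter Pool.Agent.TH964.CF
open Pool.Agent.TH964.CF.PUSH hiding ol_Psi continuous_ol ol_dep step main

section top

variable {G : Type} [Group G] [TopologicalSpace G] [IsTopologicalGroup G]
  [CompactSpace G] [T2Space G] [SecondCountableTopology G] [MeasurableSpace G]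
  [BorelSpace G] (σ : Measure G) [IsProbabilityMeasure σ]

theorem ol_Psi {N : ℕ} (π : G →* Matrix.unitaryGroup (Fin N) ℂ)
    {M : ℕ} (τ : G →* Matrix.unitaryGroup (Fin M) ℂ) (β : ℝ) (j : Fin 4) (c : ℤ)
    (e : Lk ℤ) (he : e.2 ≠ j) (he1 : e.1 j = c - 1) (Y : (Lk ℤ → G) → Fin M → ℂ) :
    ol σ π β e (Psi τ j c Y) = Psi τ j c (ol σ π β e Y) := by
  funext U
  have hloc : ∀ y, loc π e (Function.update U e y) =
      loc π e (Function.update (tg j c U) e y) := by
    intro y
    rw [← tg_update j c U e he he1 y]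
    exact (loc_gt π _ e _).symm
  have hP : ∀ y, Psi τ j c Y (Function.update U e y) =
      actE τ (U (Pi.single j c - ev ℤ j, j))⁻¹ (Y (Function.update (tg j c U) e y)) := by
    intro y
    unfold Psi
    rw [tg_update j c U e he he1 y, Function.update_of_ne, actE_apply]
    intro h'
    apply he
    rw [← h']
  unfold ol
  simp only [hloc, hP]
  simp only [Psi]
  rw [← actE_apply, map_smul]
  congr 1
  rw [← ContinuousLinearEquiv.integral_comp_comm]
  simp only [map_smul]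

theorem continuous_ol {N M : ℕ} (π : G →* Matrix.unitaryGroup (Fin N) ℂ) (hπ : Continuous π)
    (β : ℝ) (e : Lk ℤ) (F : (Lk ℤ → G) → Fin M → ℂ) (hF : Continuous F) :
    Continuous (ol σ π β e F) := by
  have h1 : Continuous fun p : (Lk ℤ → G) × G =>
      Real.exp (β * loc π e (Function.update p.1 e p.2)) :=
    Real.continuous_exp.comp
      (continuous_const.mul ((continuous_loc π hπ e).comp (continuous_up e)))
  have h2 : Continuous fun p : (Lk ℤ → G) × G =>
      Real.exp (β * loc π e (Function.update p.1 e p.2)) • F (Function.update p.1 e p.2) :=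
    h1.smul (hF.comp (continuous_up e))
  have h3 := continuous_parametric_integral_of_continuous (μ := σ) (f := fun (U : Lk ℤ → G) y =>
    Real.exp (β * loc π e (Function.update U e y))) h1 isCompact_univ
  have h4 := continuous_parametric_integral_of_continuous (μ := σ) (f := fun (U : Lk ℤ → G) y =>
    Real.exp (β * loc π e (Function.update U e y)) • F (Function.update U e y)) h2 isCompact_univ
  simp only [Measure.restrict_univ] at h3 h4
  refine (h3.inv₀ fun U => ?_).smul h4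
  refine (integral_exp_pos ?_).ne'
  exact (h1.comp (Continuous.prodMk_right U)).integrable_of_hasCompactSupport
    (HasCompactSupport.of_compactSpace _)

theorem ol_dep {N M : ℕ} (π : G →* Matrix.unitaryGroup (Fin N) ℂ) (β : ℝ) (j : Fin 4) (c s : ℤ)
    (e : Lk ℤ) (heb : e ∈ box s) (he : e.2 ≠ j) (he1 : e.1 j = c - 1)
    (F : (Lk ℤ → G) → Fin M → ℂ) (hF : DependsOn F (box (s + 1) ∩ hs j c)) :
    DependsOn (ol σ π β e F) (box (s + 1) ∩ hs j c) := by
  intro U V hUV
  have h1 : ∀ y, loc π e (Function.update U e y) = loc π e (Function.update V e y) :=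
    fun y => loc_congr π j c s e heb he he1 U V hUV y
  have h2 : ∀ y, F (Function.update U e y) = F (Function.update V e y) := by
    intro y
    apply hF
    intro l hl
    by_cases h : l = e
    · subst h; simp
    · rw [Function.update_of_ne h, Function.update_of_ne h]; exact hUV l hl
  unfold ol
  simp only [h1, h2]

theorem step (hElim : T_ELIM) [σ.IsHaarMeasure] {N : ℕ} (π : G →* Matrix.unitaryGroup (Fin N) ℂ)
    (hπ : Continuous π) (hinj : Function.Injective π) {M : ℕ}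
    (τ : G →* Matrix.unitaryGroup (Fin M) ℂ) (hτ : Continuous τ) (β : ℝ) (hβ : 0 < β)
    (X : Type) [PseudoMetricSpace X] (Q : ((Lk ℤ → G) → Fin M → ℂ) → X)
    (j : Fin 4) (c s : ℤ) (hc1 : -s + 1 ≤ c) (hc2 : c ≤ s)
    (hQ1 : ∀ Φ, Continuous Φ → DependsOn Φ (box (s + 1) ∩ hs j c) → ∀ ε : ℝ, 0 < ε →
      ∃ δ : ℝ, 0 < δ ∧
      ∀ Φ', Continuous Φ' → DependsOn Φ' (box (s + 1) ∩ hs j c) → (∀ U, ‖Φ' U - Φ U‖ ≤ δ) →
        dist (Q Φ') (Q Φ) ≤ ε)
    (hQ2 : ∀ Φ, Continuous Φ → DependsOn Φ (box (s + 1) ∩ hs j c) → ∀ e : Lk ℤ, e ∈ box s →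
      e.1 j = c - 1 → e.2 ≠ j → Q (ol σ π β e Φ) = Q Φ)
    (e : Lk ℤ) (he : e ∈ box s ∧ e.1 j = c ∧ e.2 ≠ j) (S : Set (Lk ℤ))
    (hS : ∀ l ∈ S, l ∈ box s ∧ l.1 j = c ∧ l.2 ≠ j)
    (Y : (Lk ℤ → G) → Fin M → ℂ) (hYc : Continuous Y)
    (hY : DependsOn Y (insert e S ∪ (box (s + 1) ∩ hs j (c - 1)))) (ε : ℝ) (hε : 0 < ε) :
    ∃ Y' : (Lk ℤ → G) → Fin M → ℂ, Continuous Y' ∧
      DependsOn Y' (S ∪ (box (s + 1) ∩ hs j (c - 1))) ∧
      dist (Q (Psi τ j c Y')) (Q (Psi τ j c Y)) ≤ ε := by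
  obtain ⟨heb, hej, he2⟩ := he
  -- dependence of `Psi`
  have hPd : ∀ (T : Set (Lk ℤ)) (W : (Lk ℤ → G) → Fin M → ℂ),
      (∀ l ∈ T, l ∈ box s ∧ l.1 j = c ∧ l.2 ≠ j) →
      DependsOn W (T ∪ (box (s + 1) ∩ hs j (c - 1))) →
      DependsOn (Psi τ j c W) (box (s + 1) ∩ hs j c) := by
    intro T W hT hW
    apply Psi_dep τ j c s hc1 hc2
    intro U V hUV
    apply hW
    rintro l (hl | hl)
    · exact hUV l (Or.inl (hT l hl))
    · exact hUV l (Or.inr hl)
  have hins : ∀ l ∈ insert e S, l ∈ box s ∧ l.1 j = c ∧ l.2 ≠ j := by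
    rintro l (hl | hl)
    · rw [hl]; exact ⟨heb, hej, he2⟩
    · exact hS l hl
  -- the link below
  have e'b : ((e.1 - ev ℤ j, e.2) : Lk ℤ) ∈ box s := by
    intro k
    have h1 := heb k
    have h2 := ev_nonneg j k
    have h3 := ev_nonneg e.2 k
    simp only [Pi.add_apply, Pi.sub_apply] at h1 ⊢
    by_cases h : k = j
    · subst h
      rw [ev_same] at h2 ⊢
      rw [ev_ne he2] at h1 ⊢
      omega
    · rw [ev_ne (Ne.symm h)]
      omega
  have e'1 : ((e.1 - ev ℤ j, e.2) : Lk ℤ).1 j = c - 1 := by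
    simp only [Pi.sub_apply, ev_same, hej]
  have e'2 : ((e.1 - ev ℤ j, e.2) : Lk ℤ).2 ≠ j := he2
  have hPYc := continuous_Psi τ hτ j c Y hYc
  have hPYd := hPd _ Y hins hY
  obtain ⟨δ, hδ, hδ'⟩ := hQ1 (ol σ π β (e.1 - ev ℤ j, e.2) (Psi τ j c Y))
    (continuous_ol σ π hπ β _ _ hPYc) (ol_dep σ π β j c s _ e'b e'2 e'1 _ hPYd) ε hε
  obtain ⟨Y', hY'c, hY'd, hY'e⟩ := hElim G σ N π hπ hinj M β hβ j c s hc1 hc2 e heb hej he2 S hS Y
    hYc hY (δ / (M + 1)) (by positivity)
  refine ⟨Y', hY'c, hY'd, ?_⟩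
  have hPY'c := continuous_Psi τ hτ j c Y' hY'c
  have hPY'd := hPd _ Y' hS hY'd
  rw [← hQ2 _ hPYc hPYd _ e'b e'1 e'2, ← hQ2 _ hPY'c hPY'd _ e'b e'1 e'2]
  refine hδ' _ (continuous_ol σ π hπ β _ _ hPY'c) (ol_dep σ π β j c s _ e'b e'2 e'1 _ hPY'd) ?_
  intro U
  rw [ol_Psi σ π τ β j c _ e'2 e'1, ol_Psi σ π τ β j c _ e'2 e'1]
  unfold Psi
  rw [← actE_apply, ← actE_apply, ← map_sub, actE_apply]
  refine (norm_act τ _ _).trans ?_
  refine (mul_le_mul_of_nonneg_left (hY'e _ (tg_triv j c U)) (Nat.cast_nonneg M)).trans ?_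
  rw [mul_div_assoc', div_le_iff₀ (by positivity)]
  nlinarith [hδ.le]

end top

theorem main (hElim : T_ELIM) : T_PUSH := by
  intro G _ _ _ _ _ _ _ _ σ _ _ N π hπ hinj M τ hτ β hβ X _ Q j c s hc1 hc2 hQ1 hQ2 Z hZc hZd hZ ε hε
  classical
  -- iteration over the links of the hyperplane
  have iter : ∀ S : Finset (Lk ℤ), (∀ l ∈ S, l ∈ box s ∧ l.1 j = c ∧ l.2 ≠ j) →
      ∀ Y : (Lk ℤ → G) → Fin M → ℂ, Continuous Y →
      DependsOn Y ((S : Set (Lk ℤ)) ∪ (box (s + 1) ∩ hs j (c - 1))) → ∀ ε : ℝ, 0 < ε →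
      ∃ Y' : (Lk ℤ → G) → Fin M → ℂ, Continuous Y' ∧
        DependsOn Y' (box (s + 1) ∩ hs j (c - 1)) ∧
        dist (Q (Psi τ j c Y')) (Q (Psi τ j c Y)) ≤ ε := by
    intro S
    induction S using Finset.induction_on with
    | empty =>
      intro _ Y hYc hY ε hε
      refine ⟨Y, hYc, ?_, by rw [dist_self]; exact hε.le⟩
      simpa using hY
    | insert e S _ ih =>
      intro hS Y hYc hY ε hε
      obtain ⟨Y1, h1c, h1d, h1e⟩ := step σ hElim π hπ hinj τ hτ β hβ X Q j c s hc1 hc2 hQ1 hQ2 e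
        (hS e (Finset.mem_insert_self e S)) (S : Set (Lk ℤ))
        (fun l hl => hS l (Finset.mem_insert_of_mem hl)) Y hYc
        (by rw [Finset.coe_insert] at hY; exact hY) (ε / 2) (by positivity)
      obtain ⟨Y2, h2c, h2d, h2e⟩ := ih (fun l hl => hS l (Finset.mem_insert_of_mem hl)) Y1 h1c h1d
        (ε / 2) (by positivity)
      refine ⟨Y2, h2c, h2d, ?_⟩
      calc dist (Q (Psi τ j c Y2)) (Q (Psi τ j c Y))
          ≤ dist (Q (Psi τ j c Y2)) (Q (Psi τ j c Y1)) +
            dist (Q (Psi τ j c Y1)) (Q (Psi τ j c Y)) := dist_triangle _ _ _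
        _ ≤ ε / 2 + ε / 2 := add_le_add h2e h1e
        _ = ε := by ring
  -- the links of the hyperplane in the box
  have hfin : ({l : Lk ℤ | l ∈ box s ∧ l.1 j = c ∧ l.2 ≠ j}).Finite :=
    (box_finite s).subset fun l hl => hl.1
  -- replace the links that are trivial after the gauge fixing by `1`
  let ret : (Lk ℤ → G) → Lk ℤ → G := fun U l => if l.2 = j ∧ l.1 j = c - 1 then 1 else U l
  have hretc : Continuous ret := by
    refine continuous_pi fun l => ?_
    show Continuous fun U : Lk ℤ → G => if l.2 = j ∧ l.1 j = c - 1 then (1 : G) else U l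
    split_ifs
    · exact continuous_const
    · exact continuous_apply l
  have hrett : ∀ U : Lk ℤ → G, ret (tg j c U) = tg j c U := by
    intro U
    funext l
    show (if l.2 = j ∧ l.1 j = c - 1 then (1 : G) else tg j c U l) = tg j c U l
    split_ifs with h
    · have h1 := tg_triv j c U (l.1 + ev ℤ j) (by rw [Pi.add_apply, ev_same]; omega)
      rw [add_sub_cancel_right] at h1
      have h2 : l = (l.1, j) := Prod.ext rfl h.1
      rw [h2]
      exact h1.symm
    · rfl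
  have hd0 : DependsOn (fun U => Z (ret U))
      ((hfin.toFinset : Set (Lk ℤ)) ∪ (box (s + 1) ∩ hs j (c - 1))) := by
    intro U V hUV
    show Z (ret U) = Z (ret V)
    apply hZd
    intro l hl
    show (if l.2 = j ∧ l.1 j = c - 1 then (1 : G) else U l) =
      if l.2 = j ∧ l.1 j = c - 1 then (1 : G) else V l
    split_ifs with h
    · rfl
    · apply hUV
      have hb : l ∈ box s := hl.1
      have hh : (l.1 + ev ℤ l.2) j ≤ c := hl.2
      rw [Pi.add_apply] at hh
      by_cases h1 : l.2 = j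
      · right
        refine ⟨fun k => by have := hb k; omega, ?_⟩
        show (l.1 + ev ℤ l.2) j ≤ c - 1
        rw [Pi.add_apply]
        rw [h1, ev_same] at hh ⊢
        have : l.1 j ≠ c - 1 := fun h' => h ⟨h1, h'⟩
        omega
      · rw [ev_ne h1] at hh
        by_cases h2 : l.1 j = c
        · left
          rw [Set.Finite.coe_toFinset]
          exact ⟨hb, h2, h1⟩
        · right
          refine ⟨fun k => by have := hb k; omega, ?_⟩
          show (l.1 + ev ℤ l.2) j ≤ c - 1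
          rw [Pi.add_apply, ev_ne h1]
          omega
  obtain ⟨Z', hZ'c, hZ'd, hZ'e⟩ := iter hfin.toFinset (fun l hl => hfin.mem_toFinset.1 hl)
    (fun U => Z (ret U)) (hZc.comp hretc) hd0 ε hε
  refine ⟨Z', hZ'c, hZ'd, ?_⟩
  have e1 : Psi τ j c (fun U => Z (ret U)) = Z := by
    refine Eq.trans ?_ (Psi_cov τ j c Z hZ)
    funext U
    have h1 := hrett U
    unfold Psi
    simp only [h1]
  have e2 : Psi τ j c Z' = fun U => act τ (U (Pi.single j c - ev ℤ j, j))⁻¹ (Z' U) := by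
    funext U
    unfold Psi
    congr 1
    apply hZ'd
    intro l hl
    exact tg_of_hs j c U hl.2
  rw [e1, e2] at hZ'e
  exact hZ'e

end Pool.Agent.H189.SC.PUSH
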