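import Pool.Agent.H189.SC.St
import Pool.Agent.TH964.CF.P_RP1

/-!
# The sesquilinear form in direction `1` (after TH964/CF/P_RP1)
-/

set_option linter.unusedSectionVars false

namespace Pool.Agent.H189.SC.RP1

open MeasureTheory Filter Pool.Agent.TH964.CF
open Pool.Agent.TH964.CF.RP1 hiding loc_add loc_cmul loc_sum hfun_pos hfun_exp hfun_cs fm_val main

section st

variable {G : Type} [Group G] [TopologicalSpace G] [IsTopologicalGroup G] [MeasurableSpace G]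
  {σ : Measure G} {N : ℕ} {π : G →* Matrix.unitaryGroup (Fin N) ℂ} {β : ℝ}
  {M : ℕ} {τ : G →* Matrix.unitaryGroup (Fin M) ℂ}
  {Λ : ((Lk ℤ → G) → ℂ) → ℂ}

lemma loc_add {F H : (Lk ℤ → G) → ℂ} (hF : Loc F) (hH : Loc H) : Loc fun U => F U + H U :=
  loc_pair hF hH (f := fun x y => x + y) continuous_add

lemma loc_cmul (c : ℂ) {F : (Lk ℤ → G) → ℂ} (hF : Loc F) : Loc fun U => c * F U := by
  obtain ⟨hc, S, hS, hd⟩ := hF
  refine ⟨continuous_const.mul hc, S, hS, fun U V hUV => ?_⟩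
  change c * _ = c * _
  rw [hd hUV]

lemma loc_sum {ι : Type} (s : Finset ι) (f : ι → (Lk ℤ → G) → ℂ) (hf : ∀ i ∈ s, Loc (f i))
    (hΛ : State σ π β Λ) :
    Loc (fun U => ∑ i ∈ s, f i U) ∧ Λ (fun U => ∑ i ∈ s, f i U) = ∑ i ∈ s, Λ (f i) := by
  classical
  induction s using Finset.induction_on with
  | empty =>
    have h0 : Loc (fun _ : Lk ℤ → G => (0 : ℂ)) :=
      ⟨continuous_const, ∅, Set.finite_empty, fun _ _ _ => rfl⟩
    simp only [Finset.sum_empty]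
    refine ⟨h0, ?_⟩
    have := hΛ.smul 0 (fun _ => 0) h0
    simpa using this
  | insert i s hi ih =>
    have h1 := ih (fun j hj => hf j (Finset.mem_insert_of_mem hj))
    have h2 := hf i (Finset.mem_insert_self _ _)
    simp only [Finset.sum_insert hi]
    refine ⟨loc_add h2 h1.1, ?_⟩
    rw [hΛ.add _ _ h2 h1.1, h1.2]

lemma hfun_pos (hΛ : State σ π β Λ) {F : (Lk ℤ → G) → Fin M → ℂ} (hF : Loc F)
    (hd : DependsOn F (hs 1 0)) : 0 ≤ (Λ (hfun F F)).re ∧ (Λ (hfun F F)).im = 0 := by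
  have h1 : hfun F F = fun V => ∑ k, (starRingEnd ℂ (F (refl 1 V) k) * F V k) := by
    funext V
    rfl
  have h2 : ∀ k ∈ (Finset.univ : Finset (Fin M)),
      Loc fun V => starRingEnd ℂ (F (refl 1 V) k) * F V k := by
    intro k _
    apply loc_pair (loc_refl (loc_comp hF k) 1) (loc_comp hF k)
      (f := fun x y => starRingEnd ℂ x * y)
    exact (Complex.continuous_conj.comp continuous_fst).mul continuous_snd
  have h3 : ∀ k, 0 ≤ (Λ fun V => starRingEnd ℂ (F (refl 1 V) k) * F V k).re ∧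
      (Λ fun V => starRingEnd ℂ (F (refl 1 V) k) * F V k).im = 0 := by
    intro k
    refine hΛ.rp 1 (fun V => F V k) (loc_comp hF k) ?_
    intro U V hUV
    exact congrFun (hd hUV) k
  rw [h1, (loc_sum _ _ h2 hΛ).2, Complex.re_sum, Complex.im_sum]
  exact ⟨Finset.sum_nonneg fun k _ => (h3 k).1, Finset.sum_eq_zero fun k _ => (h3 k).2⟩

lemma hfun_exp (hΛ : State σ π β Λ) {F H : (Lk ℤ → G) → Fin M → ℂ} (hF : Loc F) (hH : Loc H)
    (c : ℂ) : Λ (hfun (fun U => F U + c • H U) (fun U => F U + c • H U)) =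
      Λ (hfun F F) + c * Λ (hfun F H) + starRingEnd ℂ c * Λ (hfun H F) +
        c * starRingEnd ℂ c * Λ (hfun H H) := by
  have h1 : hfun (fun U => F U + c • H U) (fun U => F U + c • H U) =
      fun V => (hfun F F V + c * hfun F H V + starRingEnd ℂ c * hfun H F V) +
        (c * starRingEnd ℂ c) * hfun H H V := by
    funext V
    simp only [hfun, star_add, star_smul, add_dotProduct, dotProduct_add, smul_dotProduct,
      dotProduct_smul, smul_eq_mul, starRingEnd_apply]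
    ring
  have l1 := hfun_loc hF hF
  have l2 := loc_cmul c (hfun_loc hF hH)
  have l3 := loc_cmul (starRingEnd ℂ c) (hfun_loc hH hF)
  have l4 := loc_cmul (c * starRingEnd ℂ c) (hfun_loc hH hH)
  rw [h1, hΛ.add _ _ (loc_add (loc_add l1 l2) l3) l4, hΛ.add _ _ (loc_add l1 l2) l3,
    hΛ.add _ _ l1 l2, hΛ.smul _ _ (hfun_loc hF hH), hΛ.smul _ _ (hfun_loc hH hF),
    hΛ.smul _ _ (hfun_loc hH hH)]

lemma hfun_cs (hΛ : State σ π β Λ) {F H : (Lk ℤ → G) → Fin M → ℂ} (hF : Loc F) (hH : Loc H)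
    (hdF : DependsOn F (hs 1 0)) (hdH : DependsOn H (hs 1 0)) :
    ‖Λ (hfun F H)‖ ^ 2 ≤ (Λ (hfun F F)).re * (Λ (hfun H H)).re ∧
      Λ (hfun F H) = starRingEnd ℂ (Λ (hfun H F)) := by
  have hFF := hfun_pos hΛ hF hdF
  have hHH := hfun_pos hΛ hH hdH
  apply cs_abs
  intro c
  have e1 : (((Λ (hfun F F)).re : ℝ) : ℂ) = Λ (hfun F F) := by
    apply Complex.ext
    · simp
    · simp [hFF.2]
  have e2 : (((Λ (hfun H H)).re : ℝ) : ℂ) = Λ (hfun H H) := by
    apply Complex.ext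
    · simp
    · simp [hHH.2]
  rw [e1, e2, ← hfun_exp hΛ hF hH c]
  apply hfun_pos hΛ
  · apply loc_pair hF hH (f := fun x y => x + c • y)
    exact continuous_fst.add (continuous_snd.const_smul c)
  · intro U V hUV
    change F U + c • H U = F V + c • H V
    rw [hdF hUV, hdH hUV]

lemma fm_val (hτ : Continuous τ) (hΛ : State σ π β Λ) (t a b : ℕ)
    {Φ₁ Φ₂ : (Lk ℤ → G) → Fin M → ℂ} (h1 : Loc Φ₁) (h2 : Loc Φ₂) :
    Λ (fm τ t (a + b) Φ₁ Φ₂) = Λ (hfun (Aop τ t a Φ₁) (Aop τ t b Φ₂)) := by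
  have h3 : fm τ t (a + b) Φ₁ Φ₂ =
      fun U => hfun (Aop τ t a Φ₁) (Aop τ t b Φ₂) (shift (b • ev ℤ 1) U) := by
    funext U
    exact fm_eq τ t a b Φ₁ Φ₂ U
  rw [h3]
  exact hΛ.tr _ _ (hfun_loc (aop_loc hτ t a h1) (aop_loc hτ t b h2))

end st

theorem main : T_RP1 := by
  intro G _ _ _ _ _ _ _ _ σ _ _ N π hπ M τ hτ β Λ hΛ t a b Φ₁ Φ₂ h1 h2 d1 d2
  have hF := aop_loc hτ t a h1
  have hH := aop_loc hτ t b h2
  have hdF := aop_dep τ t a d1
  have hdH := aop_dep τ t b d2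
  have hcs := hfun_cs hΛ hF hH hdF hdH
  refine ⟨?_, ?_, ?_⟩
  · rw [two_mul, two_mul, fm_val hτ hΛ t a b h1 h2, fm_val hτ hΛ t a a h1 h1,
      fm_val hτ hΛ t b b h2 h2]
    exact hcs.1
  · have h3 := fm_val hτ hΛ t b a h2 h1
    rw [add_comm b a] at h3
    rw [fm_val hτ hΛ t a b h1 h2, h3]
    exact hcs.2
  · rw [two_mul, fm_val hτ hΛ t a a h1 h1]
    exact (hfun_pos hΛ hF hdF).1

end Pool.Agent.H189.SC.RP1
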