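import Pool.Agent.TH964.CF.Stm3

/-!
# Statements of the lemmas, for loops in a second representation `τ` of the gauge group
-/

namespace Pool.Agent.H189.SC

open MeasureTheory Filter Pool.Agent.TH964.CF

/-- Elimination of one link `e` of the hyperplane `x j = c`. -/
def T_ELIM : Prop :=
  ∀ (G : Type) [Group G] [TopologicalSpace G] [IsTopologicalGroup G] [CompactSpace G] [T2Space G]
    [SecondCountableTopology G] [MeasurableSpace G] [BorelSpace G] (σ : Measure G)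
    [IsProbabilityMeasure σ] [σ.IsHaarMeasure] (N : ℕ) (π : G →* Matrix.unitaryGroup (Fin N) ℂ),
    Continuous π → Function.Injective π → ∀ M : ℕ, ∀ β : ℝ, 0 < β →
    ∀ (j : Fin 4) (c s : ℤ), -s + 1 ≤ c → c ≤ s → ∀ e : Lk ℤ, e ∈ box s → e.1 j = c → e.2 ≠ j →
    ∀ S : Set (Lk ℤ), (∀ l ∈ S, l ∈ box s ∧ l.1 j = c ∧ l.2 ≠ j) →
    ∀ Y : (Lk ℤ → G) → Fin M → ℂ, Continuous Y →
    DependsOn Y (insert e S ∪ (box (s + 1) ∩ hs j (c - 1))) → ∀ ε : ℝ, 0 < ε →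
    ∃ Y' : (Lk ℤ → G) → Fin M → ℂ, Continuous Y' ∧
      DependsOn Y' (S ∪ (box (s + 1) ∩ hs j (c - 1))) ∧
      ∀ U : Lk ℤ → G, triv j c U →
        ‖ol σ π β (e.1 - ev ℤ j, e.2) Y' U - ol σ π β (e.1 - ev ℤ j, e.2) Y U‖ ≤ ε

/-- The push lemma. -/
def T_PUSH : Prop :=
  ∀ (G : Type) [Group G] [TopologicalSpace G] [IsTopologicalGroup G] [CompactSpace G] [T2Space G]
    [SecondCountableTopology G] [MeasurableSpace G] [BorelSpace G] (σ : Measure G)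
    [IsProbabilityMeasure σ] [σ.IsHaarMeasure] (N : ℕ) (π : G →* Matrix.unitaryGroup (Fin N) ℂ),
    Continuous π → Function.Injective π →
    ∀ (M : ℕ) (τ : G →* Matrix.unitaryGroup (Fin M) ℂ), Continuous τ → ∀ β : ℝ, 0 < β →
    ∀ (X : Type) [PseudoMetricSpace X] (Q : ((Lk ℤ → G) → Fin M → ℂ) → X)
    (j : Fin 4) (c s : ℤ), -s + 1 ≤ c → c ≤ s →
    (∀ Φ, Continuous Φ → DependsOn Φ (box (s + 1) ∩ hs j c) → ∀ ε : ℝ, 0 < ε → ∃ δ : ℝ, 0 < δ ∧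
      ∀ Φ', Continuous Φ' → DependsOn Φ' (box (s + 1) ∩ hs j c) → (∀ U, ‖Φ' U - Φ U‖ ≤ δ) →
        dist (Q Φ') (Q Φ) ≤ ε) →
    (∀ Φ, Continuous Φ → DependsOn Φ (box (s + 1) ∩ hs j c) → ∀ e : Lk ℤ, e ∈ box s →
      e.1 j = c - 1 → e.2 ≠ j → Q (ol σ π β e Φ) = Q Φ) →
    ∀ Z : (Lk ℤ → G) → Fin M → ℂ, Continuous Z → DependsOn Z (box s ∩ hs j c) → Cov τ j c Z →
    ∀ ε : ℝ, 0 < ε → ∃ Z' : (Lk ℤ → G) → Fin M → ℂ, Continuous Z' ∧
      DependsOn Z' (box (s + 1) ∩ hs j (c - 1)) ∧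
      dist (Q fun U => act τ (U (Pi.single j c - ev ℤ j, j))⁻¹ (Z' U)) (Q Z) ≤ ε

/-- Properties of the gauge average. -/
def T_GAV : Prop :=
  ∀ (G : Type) [Group G] [TopologicalSpace G] [IsTopologicalGroup G] [CompactSpace G] [T2Space G]
    [SecondCountableTopology G] [MeasurableSpace G] [BorelSpace G] (σ : Measure G)
    [IsProbabilityMeasure σ] [σ.IsHaarMeasure] (N : ℕ) (π : G →* Matrix.unitaryGroup (Fin N) ℂ),
    Continuous π → ∀ (M : ℕ) (τ : G →* Matrix.unitaryGroup (Fin M) ℂ), Continuous τ →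
    (∀ (j : Fin 4) (c s : ℤ), -s ≤ c → c ≤ s → ∀ Z : (Lk ℤ → G) → Fin M → ℂ, Continuous Z →
      DependsOn Z (box s ∩ hs j c) →
      Continuous (gav σ τ (sl j c s) (Pi.single j c) Z) ∧
      DependsOn (gav σ τ (sl j c s) (Pi.single j c) Z) (box s ∩ hs j c) ∧
      Cov τ j c (gav σ τ (sl j c s) (Pi.single j c) Z)) ∧
    ∀ (β : ℝ) (Λ : ((Lk ℤ → G) → ℂ) → ℂ), State σ π β Λ →
    ∀ (C Z : (Lk ℤ → G) → Fin M → ℂ), Loc C → Loc Z →
    ∀ (P : Finset (Fin 4 → ℤ)) (p₀ : Fin 4 → ℤ), p₀ ∈ P →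
    (∀ g : (Fin 4 → ℤ) → G, (∀ p, p ∉ P → g p = 1) → ∀ U, C (gt g U) = act τ (g p₀) (C U)) →
    Λ (fun U => star (C U) ⬝ᵥ gav σ τ P p₀ Z U) = Λ fun U => star (C U) ⬝ᵥ Z U

/-- One-link conditional expectations can be inserted against a function that does not depend on
the link, and they preserve continuity and locality. -/
def T_DLR2 : Prop :=
  ∀ (G : Type) [Group G] [TopologicalSpace G] [IsTopologicalGroup G] [CompactSpace G] [T2Space G]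
    [SecondCountableTopology G] [MeasurableSpace G] [BorelSpace G] (σ : Measure G)
    [IsProbabilityMeasure σ] [σ.IsHaarMeasure] (N : ℕ) (π : G →* Matrix.unitaryGroup (Fin N) ℂ),
    Continuous π → ∀ M : ℕ, ∀ β : ℝ,
    (∀ (V : Type) [NormedAddCommGroup V] [NormedSpace ℝ V] [CompleteSpace V] (e : Lk ℤ)
      (F : (Lk ℤ → G) → V), Continuous F → Continuous (ol σ π β e F) ∧
      (∀ S : Set (Lk ℤ), DependsOn F S → DependsOn (ol σ π β e F)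
        (S ∪ {l | ∃ j, j ≠ e.2 ∧ l ∈ ({(e.1 + ev ℤ e.2, j), (e.1 + ev ℤ j, e.2), (e.1, j),
          (e.1 - ev ℤ j, e.2), (e.1 - ev ℤ j + ev ℤ e.2, j), (e.1 - ev ℤ j, j)} :
            Set (Lk ℤ))})) ∧
      (∀ C : ℝ, (∀ U, ‖F U‖ ≤ C) → ∀ U, ‖ol σ π β e F U‖ ≤ C)) ∧
    ∀ (Λ : ((Lk ℤ → G) → ℂ) → ℂ), State σ π β Λ → ∀ (C Φ : (Lk ℤ → G) → Fin M → ℂ), Loc C →
      Loc Φ → ∀ e : Lk ℤ, (∀ U y, C (Function.update U e y) = C U) →
      Λ (fun U => star (C U) ⬝ᵥ ol σ π β e Φ U) = Λ fun U => star (C U) ⬝ᵥ Φ U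

/-- Reflection positivity in direction `1`: Cauchy-Schwarz inequality, symmetry and positivity. -/
def T_RP1 : Prop :=
  ∀ (G : Type) [Group G] [TopologicalSpace G] [IsTopologicalGroup G] [CompactSpace G] [T2Space G]
    [SecondCountableTopology G] [MeasurableSpace G] [BorelSpace G] (σ : Measure G)
    [IsProbabilityMeasure σ] [σ.IsHaarMeasure] (N : ℕ) (π : G →* Matrix.unitaryGroup (Fin N) ℂ),
    Continuous π → ∀ (M : ℕ) (τ : G →* Matrix.unitaryGroup (Fin M) ℂ), Continuous τ →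
    ∀ (β : ℝ) (Λ : ((Lk ℤ → G) → ℂ) → ℂ), State σ π β Λ →
    ∀ (t a b : ℕ) (Φ₁ Φ₂ : (Lk ℤ → G) → Fin M → ℂ), Loc Φ₁ → Loc Φ₂ →
    DependsOn Φ₁ (hs 1 a) → DependsOn Φ₂ (hs 1 b) →
    ‖Λ (fm τ t (a + b) Φ₁ Φ₂)‖ ^ 2 ≤
      (Λ (fm τ t (2 * a) Φ₁ Φ₁)).re * (Λ (fm τ t (2 * b) Φ₂ Φ₂)).re ∧
    Λ (fm τ t (a + b) Φ₁ Φ₂) = starRingEnd ℂ (Λ (fm τ t (a + b) Φ₂ Φ₁)) ∧
    0 ≤ (Λ (fm τ t (2 * a) Φ₁ Φ₁)).re

/-- Reflection positivity in direction `0`: comparison with the Wilson loop. -/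
def T_WIL : Prop :=
  ∀ (G : Type) [Group G] [TopologicalSpace G] [IsTopologicalGroup G] [CompactSpace G] [T2Space G]
    [SecondCountableTopology G] [MeasurableSpace G] [BorelSpace G] (σ : Measure G)
    [IsProbabilityMeasure σ] [σ.IsHaarMeasure] (N : ℕ) (π : G →* Matrix.unitaryGroup (Fin N) ℂ),
    Continuous π → ∀ (M : ℕ) (τ : G →* Matrix.unitaryGroup (Fin M) ℂ), Continuous τ →
    ∀ (β : ℝ) (Λ : ((Lk ℤ → G) → ℂ) → ℂ), State σ π β Λ →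
    ∀ (t m : ℕ) (Φ : (Lk ℤ → G) → Fin M → ℂ), Loc Φ → DependsOn Φ (hs 0 (-t)) →
    ∀ C : ℝ, (∀ U, ‖Φ U‖ ≤ C) →
    ‖Λ (fm τ t m Φ Φ)‖ ^ 2 ≤ (M : ℝ) ^ 2 * C ^ 4 *
      (Λ fun U => Matrix.trace
        (τ (rect U (-((2 * t) • ev ℤ 0)) 0 1 (2 * t) m) : Matrix (Fin M) (Fin M) ℂ)).re

/-- The covariant function of the links of the plane of the directions `2`, `3`. -/
def T_OBS : Prop :=
  ∀ (G : Type) [Group G] [TopologicalSpace G] [IsTopologicalGroup G] [CompactSpace G] [T2Space G]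
    (N : ℕ) (π : G →* Matrix.unitaryGroup (Fin N) ℂ), Continuous π → Function.Injective π →
    ∀ (M : ℕ) (τ : G →* Matrix.unitaryGroup (Fin M) ℂ), Continuous τ →
    (∃ w : Fin M → ℂ, w ≠ 0 ∧ ∀ z ∈ Subgroup.center G, act τ z w = w) →
    ∃ (O : (Lk ℤ → G) → Fin M → ℂ) (s : ℤ), Continuous O ∧ 0 ≤ s ∧
      DependsOn O {l | l ∈ box s ∧ l.1 0 = 0 ∧ l.1 1 = 0 ∧ l.2 ≠ 0 ∧ l.2 ≠ 1} ∧
      (∀ (g : (Fin 4 → ℤ) → G) (U : Lk ℤ → G), O (gt g U) = act τ (g 0) (O U)) ∧ ∃ U, O U ≠ 0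

/-- The expectation of a Wilson loop on the torus does not depend on the position and on the plane
of the loop. -/
def T_SYM : Prop :=
  ∀ (G : Type) [Group G] [TopologicalSpace G] [IsTopologicalGroup G] [CompactSpace G] [T2Space G]
    [SecondCountableTopology G] [MeasurableSpace G] [BorelSpace G] (σ : Measure G)
    [IsProbabilityMeasure σ] [σ.IsHaarMeasure] (N : ℕ) (π : G →* Matrix.unitaryGroup (Fin N) ℂ),
    Continuous π → ∀ (M : ℕ) (τ : G →* Matrix.unitaryGroup (Fin M) ℂ), Continuous τ →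
    ∀ (β : ℝ) (n : ℕ) [NeZero n] (x : Fin 4 → ZMod n) (i j : Fin 4), i ≠ j →
    ∀ a b : ℕ,
    ∫ U, Matrix.trace (τ (rect U x i j a b) : Matrix (Fin M) (Fin M) ℂ) ∂gibbs σ π β n =
      ∫ U, Matrix.trace (τ (rect U 0 0 1 a b) : Matrix (Fin M) (Fin M) ℂ) ∂gibbs σ π β n

end Pool.Agent.H189.SC
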