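import Pool.Agent.H189.SC.St
import Pool.Agent.TH964.CF.P_SYM

/-!
# Symmetries (after TH964/CF/P_SYM)
-/

namespace Pool.Agent.H189.SC.SYM

open MeasureTheory Pool.Agent.TH964.CF
open Pool.Agent.TH964.CF.SYM hiding main

theorem main : T_SYM := by
  intro G _ _ _ _ _ _ _ _ σ _ _ N π _ M τ _ β n _ x i j hij a b
  obtain ⟨p, hp0, hp1⟩ := exists_perm hij
  have hmp : MeasurePreserving (ri (G := G) (lk x p)) (Measure.pi fun _ => σ)
    (Measure.pi fun _ => σ) := ri_mp σ (lk x p)
  have hT : ∀ U : Lk (ZMod n) → G, ri (G := G) (lk x p) U = fun l => U (lk x p l) := fun U => rfl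
  have hst : st x p 0 = x := by
    funext r
    show x r + (0 : Fin 4 → ZMod n) (p.symm r) = x r
    simp
  unfold gibbs
  rw [integral_tilted, integral_tilted]
  have h1 := hmp.integral_comp (ri (G := G) (lk x p)).measurableEmbedding
    (fun U : Lk (ZMod n) → G =>
      (Real.exp (action π β U) / ∫ V : Lk (ZMod n) → G, Real.exp (action π β V) ∂(Measure.pi fun _ => σ)) •
        Matrix.trace (τ (rect U 0 0 1 a b) : Matrix (Fin M) (Fin M) ℂ))
  rw [← h1]
  refine integral_congr_ae (Filter.Eventually.of_forall fun U => ?_)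
  simp only [hT]
  rw [rect_T, hst, hp0, hp1, action_T π β x p U]

end Pool.Agent.H189.SC.SYM
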