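import Pool.Agent.H189.SC.St
import Pool.Agent.TH964.CF.P_WIL

/-!
# Comparison with the Wilson loop (after TH964/CF/P_WIL)
-/

set_option linter.unusedSectionVars false

namespace Pool.Agent.H189.SC.WIL

open MeasureTheory Filter Pool.Agent.TH964.CF
open Pool.Agent.TH964.CF.WIL hiding main

theorem main : T_WIL := by
  intro G _ _ _ _ _ _ _ _ σ _ _ N π hπ M τ hτ β Λ hΛ t m Φ hΦ hΦd C hC
  have hC0 : 0 ≤ C := le_trans (norm_nonneg _) (hC 1)
  have hc : ∀ (U : Lk ℤ → G) (i : Fin M), ‖Φ U i‖ ≤ C := fun U i =>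
    (norm_le_pi_norm (Φ U) i).trans (hC U)
  -- continuity of matrix entries
  have hent : ∀ i j : Fin M, Continuous fun g : G => (τ g : Matrix (Fin M) (Fin M) ℂ) i j := by
    intro i j
    have h1 : Continuous fun g : G => (τ g : Matrix (Fin M) (Fin M) ℂ) :=
      continuous_subtype_val.comp hτ
    exact (continuous_apply j).comp ((continuous_apply i).comp h1)
  -- the families
  set T : (Lk ℤ → G) → Lk ℤ → G := shift (t • ev ℤ 0) with hT
  set p : (Lk ℤ → G) → G := fun V => path t m (T V) with hp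
  have hlocpath : Loc fun U : Lk ℤ → G => path t m U := by
    unfold path
    exact loc_mul (loc_mul (loc_seg _ _ _) (loc_inv (loc_seg _ _ _))) (loc_inv (loc_seg _ _ _))
  have hlocp : Loc p := loc_shift hlocpath _
  have hpe : ∀ V, p V = seg V (m • ev ℤ 1) 0 t * (seg V (t • ev ℤ 0) 1 m)⁻¹ *
      (seg V 0 0 t)⁻¹ := by
    intro V
    simp only [hp, hT, path, seg_shift]
    have e1 : -(t • ev ℤ 0) + m • ev ℤ 1 + t • ev ℤ 0 = m • ev ℤ 1 := by abel
    have e2 : (0 : Fin 4 → ℤ) + t • ev ℤ 0 = t • ev ℤ 0 := by abel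
    have e3 : -(t • ev ℤ 0) + t • ev ℤ 0 = 0 := by abel
    rw [e1, e2, e3]
  have hpr : ∀ V, p (refl 0 V) = (seg V (-(t • ev ℤ 0) + m • ev ℤ 1) 0 t)⁻¹ *
      (seg V (-(t • ev ℤ 0)) 1 m)⁻¹ * seg V (-(t • ev ℤ 0)) 0 t := by
    intro V
    rw [hpe, seg_refl0, seg_refl0, seg_refl1, rs_smul_e1, rs_smul_e0, rs_zero, inv_inv]
    have e1 : m • ev ℤ 1 - t • ev ℤ 0 = -(t • ev ℤ 0) + m • ev ℤ 1 := by abel
    have e2 : (0 : Fin 4 → ℤ) - t • ev ℤ 0 = -(t • ev ℤ 0) := by abel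
    rw [e1, e2]
  let A : Fin M × Fin M → (Lk ℤ → G) → ℂ := fun k V =>
    Φ (refl 1 (shift (m • ev ℤ 1) (T V))) k.1 * starRingEnd ℂ (Φ (T V) k.2)
  let K : Fin M × Fin M → (Lk ℤ → G) → ℂ := fun k V =>
    (τ (p (refl 0 V)) : Matrix (Fin M) (Fin M) ℂ) k.1 k.2
  have hΦi : ∀ i, Loc fun U => Φ U i := fun i => Loc.comp hΦ (continuous_apply i)
  have hA : ∀ k, Loc (A k) := by
    intro k
    have l1 : Loc fun V : Lk ℤ → G => Φ (refl 1 (shift (m • ev ℤ 1) (T V))) k.1 := by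
      have := loc_shift (loc_shift (loc_refl (hΦi k.1) 1) (m • ev ℤ 1)) (t • ev ℤ 0)
      exact this
    exact loc_cmul l1 (loc_conj (loc_shift (hΦi k.2) _))
  have hK : ∀ k, Loc (K k) := by
    intro k
    exact Loc.comp (loc_refl hlocp 0) (h := fun g : G =>
      (τ g : Matrix (Fin M) (Fin M) ℂ) k.1 k.2) (hent _ _)
  have hAd : ∀ k, DependsOn (A k) (hs 0 0) := by
    intro k U V h
    have d1 : Φ (T U) = Φ (T V) := dep_shift0 t hΦd h
    have d2 : Φ (refl 1 (shift (m • ev ℤ 1) (T U))) = Φ (refl 1 (shift (m • ev ℤ 1) (T V))) := by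
      have e0 : (m • ev ℤ 1) 0 = 0 := by
        have : ev ℤ 1 0 = 0 := ev_apply_ne (by decide)
        simp [this]
      have := dep_shift0 t (dep_refl1 (-t) (m • ev ℤ 1) e0 hΦd) h
      exact this
    simp only [A]
    rw [d1, d2]
  have hKd : ∀ k, DependsOn (K k) (hs 0 0) := by
    intro k U V h
    have hq : p (refl 0 U) = p (refl 0 V) := by
      rw [hpr, hpr]
      have e10 : ev ℤ 1 0 = 0 := ev_apply_ne (by decide)
      have f10 : ∀ n : ℕ, (n • ev ℤ 1) 0 = 0 := fun n => smul_ev_ne n (by decide)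
      have s1 : seg U (-(t • ev ℤ 0) + m • ev ℤ 1) 0 t =
          seg V (-(t • ev ℤ 0) + m • ev ℤ 1) 0 t := by
        refine seg_dep t (fun k hk => ?_) h
        simp only [hs, Set.mem_ofPred_eq, Pi.add_apply, Pi.neg_apply, smul_ev_self,
          ev_apply_self, f10]
        have : (k : ℤ) < t := by exact_mod_cast hk
        linarith
      have s2 : seg U (-(t • ev ℤ 0)) 1 m = seg V (-(t • ev ℤ 0)) 1 m := by
        refine seg_dep m (fun k hk => ?_) h
        simp only [hs, Set.mem_ofPred_eq, Pi.add_apply, Pi.neg_apply, smul_ev_self, e10, f10]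
        have : (0 : ℤ) ≤ t := by positivity
        linarith
      have s3 : seg U (-(t • ev ℤ 0)) 0 t = seg V (-(t • ev ℤ 0)) 0 t := by
        refine seg_dep t (fun k hk => ?_) h
        simp only [hs, Set.mem_ofPred_eq, Pi.add_apply, Pi.neg_apply, smul_ev_self,
          ev_apply_self]
        have : (k : ℤ) < t := by exact_mod_cast hk
        linarith
      rw [s1, s2, s3]
    simp only [K]
    rw [hq]
  -- rewriting of `Λ (fm)`
  have hfm : Loc (fm τ t m Φ Φ) := by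
    have h1 : fm τ t m Φ Φ = fun U => ∑ i : Fin M, starRingEnd ℂ
        (Φ (refl 1 (shift (m • ev ℤ 1) U)) i) *
        ∑ j : Fin M, (τ (path t m U) : Matrix (Fin M) (Fin M) ℂ) i j * Φ U j := by
      funext U
      simp only [fm, act, dotProduct, Matrix.mulVec, Pi.star_apply]
      rfl
    rw [h1]
    refine loc_sum _ fun i _ => loc_cmul (loc_conj (loc_shift (loc_refl (hΦi i) 1) _)) ?_
    refine loc_sum _ fun j _ => loc_cmul ?_ (hΦi j)
    exact Loc.comp hlocpath (h := fun g : G => (τ g : Matrix (Fin M) (Fin M) ℂ) i j) (hent _ _)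
  have hL : Λ (fm τ t m Φ Φ) = starRingEnd ℂ (B Λ K A) := by
    rw [← hΛ.tr (t • ev ℤ 0) _ hfm]
    unfold B
    rw [← hΛ.conj _ (loc_B hK hA)]
    congr 1
    funext V
    have h1 : fm τ t m Φ Φ (shift (t • ev ℤ 0) V) = ∑ i : Fin M, starRingEnd ℂ
        (Φ (refl 1 (shift (m • ev ℤ 1) (T V))) i) *
        ∑ j : Fin M, (τ (p V) : Matrix (Fin M) (Fin M) ℂ) i j * Φ (T V) j := by
      simp only [fm, act, dotProduct, Matrix.mulVec, Pi.star_apply, hp]
      rfl
    rw [h1, map_sum, Fintype.sum_prod_type]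
    refine Finset.sum_congr rfl fun i _ => ?_
    rw [Finset.mul_sum]
    refine Finset.sum_congr rfl fun j _ => ?_
    simp only [A, K, refl_refl, map_mul, Complex.conj_conj]
    ring
  -- the Wilson loop
  have hW : B Λ K K = Λ fun U => Matrix.trace
        (τ (rect U (-((2 * t) • ev ℤ 0)) 0 1 (2 * t) m) : Matrix (Fin M) (Fin M) ℂ) := by
    have hlocW : Loc fun U : Lk ℤ → G => Matrix.trace
        (τ (rect U (-((2 * t) • ev ℤ 0)) 0 1 (2 * t) m) : Matrix (Fin M) (Fin M) ℂ) := by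
      have h1 : Loc fun U : Lk ℤ → G => rect U (-((2 * t) • ev ℤ 0)) 0 1 (2 * t) m := by
        unfold rect
        exact loc_mul (loc_mul (loc_mul (loc_seg _ _ _) (loc_seg _ _ _))
          (loc_inv (loc_seg _ _ _))) (loc_inv (loc_seg _ _ _))
      refine Loc.comp h1 (h := fun g : G => Matrix.trace (τ g : Matrix (Fin M) (Fin M) ℂ)) ?_
      simp only [Matrix.trace, Matrix.diag]
      exact continuous_finsetSum _ fun i _ => hent i i
    rw [← hΛ.tr (t • ev ℤ 0) _ hlocW]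
    unfold B
    congr 1
    funext V
    have h1 : ∑ k : Fin M × Fin M, starRingEnd ℂ (K k (refl 0 V)) * K k V =
        Matrix.trace (τ ((p V)⁻¹ * p (refl 0 V)) : Matrix (Fin M) (Fin M) ℂ) := by
      rw [map_mul, map_inv]
      have h2 : ((τ (p V))⁻¹ * τ (p (refl 0 V)) : Matrix.unitaryGroup (Fin M) ℂ) =
          (star (τ (p V) : Matrix (Fin M) (Fin M) ℂ)) *
            (τ (p (refl 0 V)) : Matrix (Fin M) (Fin M) ℂ) := rfl
      rw [h2, Matrix.trace, Fintype.sum_prod_type, Finset.sum_comm]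
      refine Finset.sum_congr rfl fun j _ => ?_
      rw [Matrix.diag_apply, Matrix.mul_apply]
      refine Finset.sum_congr rfl fun i _ => ?_
      simp only [K, refl_refl, Matrix.star_apply]
      rfl
    rw [h1]
    have h3 : rect (shift (t • ev ℤ 0) V) (-((2 * t) • ev ℤ 0)) 0 1 (2 * t) m =
        seg V (-(t • ev ℤ 0)) 0 t * ((p V)⁻¹ * p (refl 0 V)) *
          (seg V (-(t • ev ℤ 0)) 0 t)⁻¹ := by
      rw [hpe, hpr]
      unfold rect
      simp only [seg_shift]
      have e1 : -((2 * t) • ev ℤ 0) + t • ev ℤ 0 = -(t • ev ℤ 0) := by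
        rw [two_mul, add_smul]; abel
      have e2 : -((2 * t) • ev ℤ 0) + (2 * t) • ev ℤ 0 + t • ev ℤ 0 = t • ev ℤ 0 := by abel
      have e3 : -((2 * t) • ev ℤ 0) + m • ev ℤ 1 + t • ev ℤ 0 =
          -(t • ev ℤ 0) + m • ev ℤ 1 := by
        rw [two_mul, add_smul]; abel
      rw [e1, e2, e3, two_mul, seg_add, seg_add]
      have e4 : -(t • ev ℤ 0) + t • ev ℤ 0 = 0 := by abel
      have e5 : -(t • ev ℤ 0) + m • ev ℤ 1 + t • ev ℤ 0 = m • ev ℤ 1 := by abel
      rw [e4, e5]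
      group
    have h4 : ∀ a b : Matrix.unitaryGroup (Fin M) ℂ,
        Matrix.trace ((a * b * a⁻¹ : Matrix.unitaryGroup (Fin M) ℂ) :
          Matrix (Fin M) (Fin M) ℂ) = Matrix.trace (b : Matrix (Fin M) (Fin M) ℂ) := by
      intro a b
      have h5 : ((a * b * a⁻¹ : Matrix.unitaryGroup (Fin M) ℂ) : Matrix (Fin M) (Fin M) ℂ) =
          ((a * b : Matrix.unitaryGroup (Fin M) ℂ) : Matrix (Fin M) (Fin M) ℂ) *
            ((a⁻¹ : Matrix.unitaryGroup (Fin M) ℂ) : Matrix (Fin M) (Fin M) ℂ) := rfl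
      have h6 : ((a⁻¹ * (a * b) : Matrix.unitaryGroup (Fin M) ℂ) : Matrix (Fin M) (Fin M) ℂ) =
          ((a⁻¹ : Matrix.unitaryGroup (Fin M) ℂ) : Matrix (Fin M) (Fin M) ℂ) *
          ((a * b : Matrix.unitaryGroup (Fin M) ℂ) : Matrix (Fin M) (Fin M) ℂ) := rfl
      rw [h5, Matrix.trace_mul_comm, ← h6, inv_mul_cancel_left]
    have h7 : ∀ a b : G, τ (a * b * a⁻¹) = τ a * τ b * (τ a)⁻¹ := fun a b => by
      rw [map_mul, map_mul, map_inv]
    rw [h3, h7, h4]
  -- bound of `B A A`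
  have hAA : (B Λ A A).re ≤ (M : ℝ) ^ 2 * C ^ 4 := by
    refine (Complex.re_le_norm _).trans ?_
    unfold B
    refine hΛ.bd _ (loc_B hA hA) _ fun V => ?_
    have hAb : ∀ k V, ‖A k V‖ ≤ C ^ 2 := by
      intro k V
      simp only [A]
      rw [norm_mul, RCLike.norm_conj, sq]
      exact mul_le_mul (hc _ _) (hc _ _) (norm_nonneg _) hC0
    refine (norm_sum_le _ _).trans ?_
    have h1 : ∀ k ∈ (Finset.univ : Finset (Fin M × Fin M)),
        ‖starRingEnd ℂ (A k (refl 0 V)) * A k V‖ ≤ C ^ 4 := by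
      intro k _
      rw [norm_mul, RCLike.norm_conj]
      have := mul_le_mul (hAb k (refl 0 V)) (hAb k V) (norm_nonneg _) (by positivity)
      calc _ ≤ C ^ 2 * C ^ 2 := this
        _ = C ^ 4 := by ring
    refine (Finset.sum_le_sum h1).trans (le_of_eq ?_)
    rw [Finset.sum_const, Finset.card_univ, Fintype.card_prod, Fintype.card_fin, nsmul_eq_mul]
    push_cast
    ring
  have hcs := B_cs hΛ hK hA hKd hAd
  have hKK := (B_self hΛ hK hKd).1
  rw [hL, RCLike.norm_conj, ← hW]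
  refine hcs.trans ?_
  rw [mul_comm]
  exact mul_le_mul_of_nonneg_right hAA hKK

end Pool.Agent.H189.SC.WIL
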